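import Mathlib

/-!
Abel's inequality, comparison of products, and an asymptotic comparison.
-/

set_option autoImplicit false

namespace Pool.Agent.K4H14.IP

open Finset

theorem abel_id (a h : ℕ → ℝ) (M : ℕ) :
    ∑ i ∈ range M, a i * h i = (∑ i ∈ range M, a i) * h M +
      ∑ i ∈ range M, (∑ l ∈ range (i + 1), a l) * (h i - h (i + 1)) := by
  induction M with
  | zero => simp
  | succ M ih =>
    rw [sum_range_succ, ih, sum_range_succ (fun i => (∑ l ∈ range (i + 1), a l) * (h i - h (i + 1))),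
      sum_range_succ a M]
    ring

theorem abel_ineq (a h : ℕ → ℝ) (M : ℕ) (E : ℝ) (hh : ∀ i, h (i + 1) ≤ h i) (hh0 : ∀ i, 0 ≤ h i)
    (hE : ∀ t, t ≤ M → |∑ i ∈ range t, a i| ≤ E) : |∑ i ∈ range M, a i * h i| ≤ E * h 0 := by
  rw [abel_id]
  calc |(∑ i ∈ range M, a i) * h M + ∑ i ∈ range M, (∑ l ∈ range (i + 1), a l) * (h i - h (i + 1))|
      ≤ |(∑ i ∈ range M, a i) * h M| + |∑ i ∈ range M, (∑ l ∈ range (i + 1), a l) * (h i - h (i + 1))| := abs_add_le _ _
    _ ≤ E * h M + ∑ i ∈ range M, E * (h i - h (i + 1)) := by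
        apply add_le_add
        · rw [abs_mul, abs_of_nonneg (hh0 M)]
          exact mul_le_mul_of_nonneg_right (hE M le_rfl) (hh0 M)
        · refine (abs_sum_le_sum_abs _ _).trans (sum_le_sum fun i hi => ?_)
          rw [abs_mul, abs_of_nonneg (sub_nonneg.2 (hh i))]
          exact mul_le_mul_of_nonneg_right (hE _ (by rw [mem_range] at hi; omega)) (sub_nonneg.2 (hh i))
    _ = E * h 0 := by
        rw [← mul_sum, sum_range_sub']
        ring

theorem prod_sub_prod {ι : Type*} (s : Finset ι) (a b : ι → ℝ) (ha : ∀ i ∈ s, 0 ≤ a i ∧ a i ≤ 1)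
    (hb : ∀ i ∈ s, 0 ≤ b i ∧ b i ≤ 1) : |∏ i ∈ s, a i - ∏ i ∈ s, b i| ≤ ∑ i ∈ s, |a i - b i| := by
  classical
  induction s using Finset.induction_on with
  | empty => simp
  | insert x s hx ih =>
    rw [prod_insert hx, prod_insert hx, sum_insert hx]
    have h1 := ih (fun i hi => ha i (mem_insert_of_mem hi)) (fun i hi => hb i (mem_insert_of_mem hi))
    have ha' := ha x (mem_insert_self _ _)
    have hb' : 0 ≤ ∏ i ∈ s, b i ∧ ∏ i ∈ s, b i ≤ 1 :=
      ⟨prod_nonneg fun i hi => (hb i (mem_insert_of_mem hi)).1,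
        prod_le_one (fun i hi => (hb i (mem_insert_of_mem hi)).1) (fun i hi => (hb i (mem_insert_of_mem hi)).2)⟩
    have e : a x * ∏ i ∈ s, a i - b x * ∏ i ∈ s, b i =
        a x * (∏ i ∈ s, a i - ∏ i ∈ s, b i) + (a x - b x) * ∏ i ∈ s, b i := by ring
    rw [e]
    calc |a x * (∏ i ∈ s, a i - ∏ i ∈ s, b i) + (a x - b x) * ∏ i ∈ s, b i|
        ≤ |a x * (∏ i ∈ s, a i - ∏ i ∈ s, b i)| + |(a x - b x) * ∏ i ∈ s, b i| := abs_add_le _ _
      _ ≤ |∏ i ∈ s, a i - ∏ i ∈ s, b i| + |a x - b x| := by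
          rw [abs_mul, abs_mul, abs_of_nonneg ha'.1, abs_of_nonneg hb'.1]
          apply add_le_add
          · calc a x * |∏ i ∈ s, a i - ∏ i ∈ s, b i| ≤ 1 * |∏ i ∈ s, a i - ∏ i ∈ s, b i| :=
                mul_le_mul_of_nonneg_right ha'.2 (abs_nonneg _)
              _ = _ := one_mul _
          · calc |a x - b x| * ∏ i ∈ s, b i ≤ |a x - b x| * 1 := mul_le_mul_of_nonneg_left hb'.2 (abs_nonneg _)
              _ = _ := mul_one _
      _ ≤ |a x - b x| + ∑ i ∈ s, |a i - b i| := by linarith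

theorem log_ge_one {n : ℕ} (hn : 3 ≤ n) : 1 ≤ Real.log n := by
  rw [← Real.log_exp 1]
  apply Real.log_le_log (Real.exp_pos _)
  have := Real.exp_one_lt_d9
  have h2 : (3 : ℝ) ≤ n := by exact_mod_cast hn
  linarith

theorem inv_log_sub (n g : ℕ) (hn : 3 ≤ n) :
    |1 / Real.log ((n + g : ℕ) : ℝ) - 1 / Real.log n| ≤ (g : ℝ) / n := by
  have h1 := log_ge_one hn
  have h2 := log_ge_one (show 3 ≤ n + g by omega)
  have hn0 : (0 : ℝ) < n := by exact_mod_cast (by omega : 0 < n)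
  have hg0 : (0 : ℝ) ≤ g := Nat.cast_nonneg _
  have h3 : Real.log n ≤ Real.log ((n + g : ℕ) : ℝ) := by
    apply Real.log_le_log hn0
    push_cast
    linarith
  have h4 : Real.log ((n + g : ℕ) : ℝ) - Real.log n ≤ (g : ℝ) / n := by
    rw [← Real.log_div (by positivity) hn0.ne']
    have h5 := Real.log_le_sub_one_of_pos (show 0 < ((n + g : ℕ) : ℝ) / n by positivity)
    refine h5.trans (le_of_eq ?_)
    push_cast
    field_simp
    ring
  rw [abs_sub_comm, abs_of_nonneg (sub_nonneg.2 (one_div_le_one_div_of_le (by linarith) h3))]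
  rw [div_sub_div _ _ (by positivity) (by positivity), div_le_iff₀ (by positivity)]
  have h6 : 1 ≤ Real.log n * Real.log ((n + g : ℕ) : ℝ) := by nlinarith
  have h7 : 0 ≤ (g : ℝ) / n := by positivity
  calc 1 * Real.log ((n + g : ℕ) : ℝ) - Real.log n * 1 = Real.log ((n + g : ℕ) : ℝ) - Real.log n := by ring
    _ ≤ (g : ℝ) / n := h4
    _ = (g : ℝ) / n * 1 := (mul_one _).symm
    _ ≤ _ := mul_le_mul_of_nonneg_left h6 h7

theorem prod_log (G : Finset ℕ) (n : ℕ) (hn : 3 ≤ n) :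
    |∏ g ∈ G, 1 / Real.log ((n + g : ℕ) : ℝ) - 1 / Real.log n ^ G.card| ≤ (∑ g ∈ G, (g : ℝ)) / n := by
  have h1 := log_ge_one hn
  have e : 1 / Real.log n ^ G.card = ∏ _g ∈ G, 1 / Real.log (n : ℝ) := by
    rw [prod_const, one_div_pow]
  rw [e]
  refine (prod_sub_prod G _ _ ?_ ?_).trans ?_
  · intro g _
    have h2 := log_ge_one (show 3 ≤ n + g by omega)
    exact ⟨by positivity, by rw [div_le_one (by linarith)]; exact h2⟩
  · intro g _
    exact ⟨by positivity, by rw [div_le_one (by linarith)]; exact h1⟩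
  · rw [sum_div]
    exact sum_le_sum fun g _ => inv_log_sub n g hn

/-- polynomials are smaller than exponentials -/
theorem poly_le (C : ℝ) (m : ℕ) (c : ℝ) (hc : 0 < c) : ∃ s0 : ℕ, ∀ s : ℕ, s0 ≤ s →
    C * ((s : ℝ) + 1) ^ m ≤ Real.exp (c * s) := by
  have h1 := (isLittleO_pow_exp_pos_mul_atTop m hc).bound (show (0 : ℝ) < Real.exp (-c) / (|C| + 1) by positivity)
  have h2 : Filter.Tendsto (fun s : ℕ => (s : ℝ) + 1) Filter.atTop Filter.atTop :=
    Filter.tendsto_atTop_add_const_right _ _ tendsto_natCast_atTop_atTop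
  obtain ⟨s0, h3⟩ := Filter.eventually_atTop.1 (h2.eventually h1)
  refine ⟨s0, fun s hs => ?_⟩
  have h4 := h3 s hs
  have hs1 : (0 : ℝ) ≤ (s : ℝ) + 1 := by positivity
  rw [Real.norm_of_nonneg (by positivity), Real.norm_of_nonneg (by positivity)] at h4
  have h5 : Real.exp (-c) * Real.exp (c * ((s : ℝ) + 1)) = Real.exp (c * s) := by
    rw [← Real.exp_add]
    congr 1
    ring
  calc C * ((s : ℝ) + 1) ^ m ≤ (|C| + 1) * ((s : ℝ) + 1) ^ m :=
        mul_le_mul_of_nonneg_right (by linarith [le_abs_self C]) (by positivity)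
    _ ≤ (|C| + 1) * (Real.exp (-c) / (|C| + 1) * Real.exp (c * ((s : ℝ) + 1))) :=
        mul_le_mul_of_nonneg_left h4 (by positivity)
    _ = Real.exp (-c) * Real.exp (c * ((s : ℝ) + 1)) := by field_simp
    _ = _ := h5

end Pool.Agent.K4H14.IP
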