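import Mathlib

/-!
Clusters of a finite set of integers: the maximal runs with all gaps at most `D`.
-/

set_option autoImplicit false

namespace Pool.Agent.K4H14.IP

open Finset

/-- the elements with no element of the set among the `D` preceding integers -/
def IsStart (R : Finset ℕ) (D m : ℕ) : Prop := m ∈ R ∧ ∀ r ∈ R, r < m → r + D < m

open Classical in
/-- the last start up to `n` -/
noncomputable def cl (R : Finset ℕ) (D n : ℕ) : ℕ := (R.filter (fun m => m ≤ n ∧ IsStart R D m)).sup id

open Classical in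
/-- the cluster -/
noncomputable def clus (R : Finset ℕ) (D i : ℕ) : Finset ℕ := R.filter (fun n => cl R D n = i)

theorem le_cl (R : Finset ℕ) (D n m : ℕ) (hm : IsStart R D m) (hmn : m ≤ n) : m ≤ cl R D n := by
  classical
  unfold cl
  exact le_sup (f := id) (mem_filter.2 ⟨hm.1, hmn, hm⟩)

theorem cl_le (R : Finset ℕ) (D n : ℕ) : cl R D n ≤ n := by
  classical
  unfold cl
  exact Finset.sup_le fun m hm => (mem_filter.1 hm).2.1

theorem cl_start (R : Finset ℕ) (D n : ℕ) (hn : n ∈ R) : IsStart R D (cl R D n) := by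
  classical
  have hne : (R.filter (fun m => m ≤ n ∧ IsStart R D m)).Nonempty := by
    have hR : R.Nonempty := ⟨n, hn⟩
    refine ⟨R.min' hR, mem_filter.2 ⟨min'_mem _ _, min'_le _ _ hn, min'_mem _ _, fun r hr hlt => ?_⟩⟩
    exact absurd (min'_le _ _ hr) (not_le.2 hlt)
  have h1 := exists_mem_eq_sup _ hne (id : ℕ → ℕ)
  obtain ⟨m, hm, h2⟩ := h1
  have : cl R D n = m := h2
  rw [this]
  exact (mem_filter.1 hm).2.2

/-- close elements are in the same cluster -/
theorem cl_eq (R : Finset ℕ) (D n n' : ℕ) (hn : n ∈ R) (hn' : n' ∈ R) (h : n ≤ n') (hD : n' ≤ n + D) :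
    cl R D n = cl R D n' := by
  apply le_antisymm
  · exact le_cl R D n' _ (cl_start R D n hn) ((cl_le R D n).trans h)
  · apply le_cl R D n _ (cl_start R D n' hn')
    by_contra hcon
    push Not at hcon
    have h1 := (cl_start R D n' hn').2 n hn hcon
    have h2 := cl_le R D n'
    omega

theorem cl_eq' (R : Finset ℕ) (D n n' : ℕ) (hn : n ∈ R) (hn' : n' ∈ R) (h1 : n ≤ n' + D) (h2 : n' ≤ n + D) :
    cl R D n = cl R D n' := by
  rcases le_total n n' with h | h
  · exact cl_eq R D n n' hn hn' h h2
  · exact (cl_eq R D n' n hn' hn h h1).symm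

/-- no long gap inside a cluster -/
theorem block (R : Finset ℕ) (D n x : ℕ) (hn : n ∈ R) (h1 : cl R D n ≤ x) (h2 : x + D ≤ n)
    (hD : 1 ≤ D) : ∃ r ∈ R, x < r ∧ r ≤ x + D := by
  classical
  have hne : (R.filter (fun r => x < r)).Nonempty := ⟨n, mem_filter.2 ⟨hn, by omega⟩⟩
  obtain ⟨r, hr, hmin⟩ := exists_min_image _ (id : ℕ → ℕ) hne
  rw [mem_filter] at hr
  by_contra hcon
  push Not at hcon
  have h3 := hcon r hr.1 hr.2
  have h4 : IsStart R D r := by
    refine ⟨hr.1, fun s hs hsr => ?_⟩
    have h5 : s ≤ x := by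
      by_contra h6
      push Not at h6
      have := hmin s (mem_filter.2 ⟨hs, h6⟩)
      simp only [id] at this
      omega
    omega
  have h5 : r ≤ n := by
    have := hmin n (mem_filter.2 ⟨hn, by omega⟩)
    simpa using this
  have := le_cl R D n r h4 h5
  omega

/-- clusters are short if the set is thin -/
theorem clus_short (R : Finset ℕ) (D P : ℕ) (hD : 1 ≤ D)
    (hR : ∀ a, (R.filter (fun r => a ≤ r ∧ r < a + P)).card < P / D) (n : ℕ) (hn : n ∈ R) :
    n < cl R D n + P := by
  classical
  by_contra hcon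
  push Not at hcon
  set m := cl R D n with hm
  have h1 : ∀ t ∈ range (P / D), ∃ r ∈ R, m + t * D < r ∧ r ≤ m + t * D + D := by
    intro t ht
    rw [mem_range] at ht
    have h2 : (t + 1) * D ≤ P := by
      calc (t + 1) * D ≤ (P / D) * D := Nat.mul_le_mul_right _ ht
        _ ≤ P := Nat.div_mul_le_self _ _
    apply block R D n (m + t * D) hn (by omega) _ hD
    have : (t + 1) * D = t * D + D := by ring
    omega
  choose! g hg using h1
  have hinj : Set.InjOn g (range (P / D) : Set ℕ) := by
    intro s hs t ht hst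
    have h2 := hg s (by simpa using hs)
    have h3 := hg t (by simpa using ht)
    rw [hst] at h2
    by_contra hne
    rcases Nat.lt_or_gt_of_ne hne with h | h
    · have : (s + 1) * D ≤ t * D := Nat.mul_le_mul_right _ h
      have e : (s + 1) * D = s * D + D := by ring
      omega
    · have : (t + 1) * D ≤ s * D := Nat.mul_le_mul_right _ h
      have e : (t + 1) * D = t * D + D := by ring
      omega
  have hsub : (range (P / D)).image g ⊆ R.filter (fun r => m + 1 ≤ r ∧ r < m + 1 + P) := by
    intro r hr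
    rw [mem_image] at hr
    obtain ⟨t, ht, rfl⟩ := hr
    have h2 := hg t ht
    rw [mem_range] at ht
    rw [mem_filter]
    refine ⟨h2.1, by omega, ?_⟩
    have h3 : (t + 1) * D ≤ P := by
      calc (t + 1) * D ≤ (P / D) * D := Nat.mul_le_mul_right _ ht
        _ ≤ P := Nat.div_mul_le_self _ _
    have : (t + 1) * D = t * D + D := by ring
    omega
  have h2 := card_le_card hsub
  rw [card_image_of_injOn hinj, card_range] at h2
  have h3 := hR (m + 1)
  omega

theorem clus_card (R : Finset ℕ) (D P : ℕ) (hD : 1 ≤ D)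
    (hR : ∀ a, (R.filter (fun r => a ≤ r ∧ r < a + P)).card < P / D) (i : ℕ) :
    (clus R D i).card ≤ P := by
  classical
  have hsub : clus R D i ⊆ Ico i (i + P) := by
    intro n hn
    unfold clus at hn
    rw [mem_filter] at hn
    rw [mem_Ico]
    have h1 := clus_short R D P hD hR n hn.1
    have h2 := cl_le R D n
    rw [hn.2] at h1 h2
    exact ⟨h2, h1⟩
  calc _ ≤ (Ico i (i + P)).card := card_le_card hsub
    _ = P := by rw [Nat.card_Ico]; omega

end Pool.Agent.K4H14.IP
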