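import Mathlib

/-!
The law of a random subset of a finite set with prescribed correlation function
`ρ(U) = ∏_{n ∈ U} p n` for the allowed sets `U`, and `0` for the others.
-/

set_option autoImplicit false

namespace Pool.Agent.K4H14.IP

open Finset

open Classical in
/-- the correlation function -/
noncomputable def rho (F : Finset ℕ → Prop) (p : ℕ → ℝ) (U : Finset ℕ) : ℝ := if F U then ∏ n ∈ U, p n else 0

/-- the law -/
noncomputable def law (F : Finset ℕ → Prop) (p : ℕ → ℝ) (C S : Finset ℕ) : ℝ :=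
  ∑ U ∈ C.powerset.filter (fun U => S ⊆ U), (-1) ^ (U.card - S.card) * rho F p U

lemma alt_sum (T U : Finset ℕ) (hTU : T ⊆ U) :
    ∑ S ∈ U.powerset.filter (fun S => T ⊆ S), (-1 : ℝ) ^ (U.card - S.card) = if T = U then 1 else 0 := by
  have h1 : ∑ S ∈ U.powerset.filter (fun S => T ⊆ S), (-1 : ℝ) ^ (U.card - S.card) =
      ∑ X ∈ (U \ T).powerset, (-1 : ℝ) ^ X.card := by
    refine sum_nbij' (fun S => U \ S) (fun X => U \ X) ?_ ?_ ?_ ?_ ?_
    · intro S hS
      rw [mem_filter, mem_powerset] at hS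
      rw [mem_powerset]
      exact sdiff_subset_sdiff (Subset.refl _) hS.2
    · intro X hX
      rw [mem_powerset] at hX
      rw [mem_filter, mem_powerset]
      refine ⟨sdiff_subset, ?_⟩
      intro n hn
      rw [mem_sdiff]
      exact ⟨hTU hn, fun h => (mem_sdiff.1 (hX h)).2 hn⟩
    · intro S hS
      rw [mem_filter, mem_powerset] at hS
      exact Finset.sdiff_sdiff_eq_self hS.1
    · intro X hX
      rw [mem_powerset] at hX
      exact Finset.sdiff_sdiff_eq_self (hX.trans sdiff_subset)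
    · intro S hS
      rw [mem_filter, mem_powerset] at hS
      rw [card_sdiff_of_subset hS.1]
  rw [h1]
  have h2 := sum_powerset_neg_one_pow_card (x := U \ T)
  have h3 : ∑ X ∈ (U \ T).powerset, (-1 : ℝ) ^ X.card = ((∑ X ∈ (U \ T).powerset, (-1 : ℤ) ^ X.card : ℤ) : ℝ) := by
    push_cast
    rfl
  rw [h3, h2]
  by_cases h : T = U
  · subst h
    simp
  · rw [if_neg h, if_neg]
    · simp
    · intro h4
      exact h (Subset.antisymm hTU (sdiff_eq_empty_iff_subset.1 h4))

theorem law_inv (F : Finset ℕ → Prop) (p : ℕ → ℝ) (C T : Finset ℕ) (hT : T ⊆ C) :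
    ∑ S ∈ C.powerset.filter (fun S => T ⊆ S), law F p C S = rho F p T := by
  unfold law
  have h1 : ∑ S ∈ C.powerset.filter (fun S => T ⊆ S), ∑ U ∈ C.powerset.filter (fun U => S ⊆ U),
      (-1 : ℝ) ^ (U.card - S.card) * rho F p U =
      ∑ U ∈ C.powerset.filter (fun U => T ⊆ U), ∑ S ∈ U.powerset.filter (fun S => T ⊆ S),
        (-1 : ℝ) ^ (U.card - S.card) * rho F p U := by
    apply sum_comm'
    intro S U
    simp only [mem_filter, mem_powerset]
    constructor
    · rintro ⟨⟨h1, h2⟩, h3, h4⟩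
      exact ⟨⟨h4, h2⟩, h3, h2.trans h4⟩
    · rintro ⟨⟨h1, h2⟩, h3, h4⟩
      exact ⟨⟨h1.trans h3, h2⟩, h3, h1⟩
  rw [h1]
  have h2 : ∀ U ∈ C.powerset.filter (fun U => T ⊆ U), ∑ S ∈ U.powerset.filter (fun S => T ⊆ S),
        (-1 : ℝ) ^ (U.card - S.card) * rho F p U = if T = U then rho F p U else 0 := by
    intro U hU
    rw [mem_filter, mem_powerset] at hU
    rw [← sum_mul, alt_sum T U hU.2]
    split_ifs <;> simp
  rw [sum_congr rfl h2, sum_ite_eq, if_pos]
  rw [mem_filter, mem_powerset]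
  exact ⟨hT, Subset.refl _⟩

theorem law_zero (F : Finset ℕ → Prop) (hF : ∀ U V, F U → V ⊆ U → F V) (p : ℕ → ℝ) (C S : Finset ℕ)
    (hS : ¬ F S) : law F p C S = 0 := by
  unfold law
  apply sum_eq_zero
  intro U hU
  rw [mem_filter] at hU
  have : rho F p U = 0 := by
    unfold rho
    rw [if_neg]
    intro h
    exact hS (hF U S h hU.2)
  rw [this, mul_zero]

theorem law_nonneg (F : Finset ℕ → Prop) (hF : ∀ U V, F U → V ⊆ U → F V) (p : ℕ → ℝ) (C S : Finset ℕ)
    (hS : S ⊆ C) (hp : ∀ n ∈ C, 0 ≤ p n) (hprod : ∏ n ∈ C, (1 + p n) ≤ 2) : 0 ≤ law F p C S := by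
  classical
  by_cases hFS : F S
  swap
  · rw [law_zero F hF p C S hFS]
  have hpS : 0 ≤ ∏ n ∈ S, p n := prod_nonneg fun n hn => hp n (hS hn)
  -- reindex
  have h1 : law F p C S = ∑ X ∈ (C \ S).powerset, (-1) ^ X.card * rho F p (S ∪ X) := by
    unfold law
    refine sum_nbij' (fun U => U \ S) (fun X => S ∪ X) ?_ ?_ ?_ ?_ ?_
    · intro U hU
      rw [mem_filter, mem_powerset] at hU
      rw [mem_powerset]
      exact sdiff_subset_sdiff hU.1 (Subset.refl _)
    · intro X hX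
      rw [mem_powerset] at hX
      rw [mem_filter, mem_powerset]
      exact ⟨union_subset hS (hX.trans sdiff_subset), subset_union_left⟩
    · intro U hU
      rw [mem_filter, mem_powerset] at hU
      exact union_sdiff_of_subset hU.2
    · intro X hX
      rw [mem_powerset] at hX
      have : Disjoint S X := by
        rw [disjoint_left]
        intro n hn hn'
        exact (mem_sdiff.1 (hX hn')).2 hn
      rw [union_sdiff_left]
      exact sdiff_eq_self_of_disjoint this.symm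
    · intro U hU
      rw [mem_filter, mem_powerset] at hU
      rw [union_sdiff_of_subset hU.2, card_sdiff_of_subset hU.2]
  rw [h1]
  have hdisj : ∀ X ∈ (C \ S).powerset, Disjoint S X := by
    intro X hX
    rw [mem_powerset] at hX
    rw [disjoint_left]
    intro n hn hn'
    exact (mem_sdiff.1 (hX hn')).2 hn
  have hX0 : ∀ X ∈ (C \ S).powerset, 0 ≤ ∏ n ∈ X, p n := by
    intro X hX
    rw [mem_powerset] at hX
    exact prod_nonneg fun n hn => hp n ((hX.trans sdiff_subset) hn)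
  have h2 : ∀ X ∈ (C \ S).powerset, X ≠ ∅ → -((∏ n ∈ S, p n) * ∏ n ∈ X, p n) ≤ (-1) ^ X.card * rho F p (S ∪ X) := by
    intro X hX _
    have h3 : 0 ≤ rho F p (S ∪ X) ∧ rho F p (S ∪ X) ≤ (∏ n ∈ S, p n) * ∏ n ∈ X, p n := by
      unfold rho
      split_ifs
      · rw [prod_union (hdisj X hX)]
        exact ⟨mul_nonneg hpS (hX0 X hX), le_refl _⟩
      · exact ⟨le_refl _, mul_nonneg hpS (hX0 X hX)⟩
    rcases neg_one_pow_eq_or ℝ X.card with h4 | h4 <;> rw [h4] <;> linarith [h3.1, h3.2]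
  have h3 : ∑ X ∈ (C \ S).powerset, (-1) ^ X.card * rho F p (S ∪ X) =
      ∏ n ∈ S, p n + ∑ X ∈ (C \ S).powerset.erase ∅, (-1) ^ X.card * rho F p (S ∪ X) := by
    rw [← add_sum_erase _ _ (empty_mem_powerset (C \ S))]
    congr 1
    rw [card_empty, pow_zero, one_mul, union_empty]
    unfold rho
    rw [if_pos hFS]
  have h4 : ∑ X ∈ (C \ S).powerset.erase ∅, -((∏ n ∈ S, p n) * ∏ n ∈ X, p n) ≤
      ∑ X ∈ (C \ S).powerset.erase ∅, (-1) ^ X.card * rho F p (S ∪ X) :=
    sum_le_sum fun X hX => h2 X (mem_of_mem_erase hX) (ne_of_mem_erase hX)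
  have h5 : ∑ X ∈ (C \ S).powerset.erase ∅, ∏ n ∈ X, p n ≤ 1 := by
    have h6 : ∑ X ∈ (C \ S).powerset, ∏ n ∈ X, p n = ∏ n ∈ C \ S, (1 + p n) := by
      rw [prod_one_add]
    have h7 : ∏ n ∈ C \ S, (1 + p n) ≤ ∏ n ∈ C, (1 + p n) := by
      rw [← prod_sdiff hS]
      have h8 : 1 ≤ ∏ n ∈ S, (1 + p n) := by
        have := prod_le_prod (s := S) (f := fun _ => (1 : ℝ)) (g := fun n => 1 + p n) (fun _ _ => by norm_num)
          (fun n hn => by have := hp n (hS hn); linarith)
        simpa using this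
      have h9 : 0 ≤ ∏ n ∈ C \ S, (1 + p n) :=
        prod_nonneg fun n hn => by have := hp n (mem_sdiff.1 hn).1; linarith
      nlinarith
    rw [← add_sum_erase _ _ (empty_mem_powerset (C \ S)), prod_empty] at h6
    linarith
  have h6 : ∑ X ∈ (C \ S).powerset.erase ∅, -((∏ n ∈ S, p n) * ∏ n ∈ X, p n) =
      -((∏ n ∈ S, p n) * ∑ X ∈ (C \ S).powerset.erase ∅, ∏ n ∈ X, p n) := by
    rw [sum_neg_distrib, ← mul_sum]
  rw [h3]
  rw [h6] at h4
  have h7 := mul_le_mul_of_nonneg_left h5 hpS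
  linarith

end Pool.Agent.K4H14.IP
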