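import Pool.Agent.K4H14.IP.Choice
import Pool.Agent.K4H14.IP.Law
import Pool.Agent.K4H14.IP.Clus

/-!
A subset of a finite set with prescribed correlations and without forbidden patterns.
-/

set_option autoImplicit false

namespace Pool.Agent.K4H14.IP

open Finset

/-- the translate -/
def sh (G : Finset ℕ) (n : ℕ) : Finset ℕ := G.image (· + n)

theorem mem_sh (G : Finset ℕ) (n m : ℕ) : m ∈ sh G n ↔ ∃ g ∈ G, g + n = m := by
  unfold sh
  rw [mem_image]

theorem sh_sub (G A : Finset ℕ) (n : ℕ) : sh G n ⊆ A ↔ ∀ g ∈ G, g + n ∈ A := by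
  constructor
  · intro h g hg
    exact h ((mem_sh G n _).2 ⟨g, hg, rfl⟩)
  · intro h m hm
    obtain ⟨g, hg, rfl⟩ := (mem_sh G n m).1 hm
    exact h g hg

section

variable (R : Finset ℕ) (D : ℕ) (G X : Finset ℕ)

theorem clus_sub (i : ℕ) : clus R D i ⊆ R := by
  classical
  unfold clus
  exact filter_subset _ _

theorem mem_clus (i n : ℕ) : n ∈ clus R D i ↔ n ∈ R ∧ cl R D n = i := by
  classical
  unfold clus
  rw [mem_filter]

open Classical in
/-- decomposition of the sets of translates inside a union of subsets of the clusters -/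
theorem decomp (ω : ℕ → Finset ℕ) (N : ℕ) (hω : ∀ i < N, ω i ⊆ clus R D i) (hG : G.Nonempty)
    (hGD : G ⊆ range (D + 1)) :
    X.filter (fun n => sh G n ⊆ (range N).biUnion ω) =
      (range N).biUnion (fun i => X.filter (fun n => sh G n ⊆ ω i)) := by
  ext n
  rw [mem_filter, mem_biUnion]
  constructor
  · rintro ⟨hn, h⟩
    obtain ⟨g0, hg0⟩ := hG
    rw [sh_sub] at h
    have h1 := h g0 hg0
    rw [mem_biUnion] at h1
    obtain ⟨i, hi, h2⟩ := h1
    refine ⟨i, hi, mem_filter.2 ⟨hn, (sh_sub _ _ _).2 fun g hg => ?_⟩⟩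
    have h3 := h g hg
    rw [mem_biUnion] at h3
    obtain ⟨i', hi', h4⟩ := h3
    have h5 := (mem_clus R D i _).1 (hω i (mem_range.1 hi) h2)
    have h6 := (mem_clus R D i' _).1 (hω i' (mem_range.1 hi') h4)
    have h7 := mem_range.1 (hGD hg0)
    have h8 := mem_range.1 (hGD hg)
    have h9 := cl_eq' R D (g0 + n) (g + n) h5.1 h6.1 (by omega) (by omega)
    rw [h5.2, h6.2] at h9
    rw [h9]
    exact h4
  · rintro ⟨i, hi, h⟩
    rw [mem_filter] at h
    exact ⟨h.1, h.2.trans (subset_biUnion_of_mem ω hi)⟩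

open Classical in
theorem disj (ω : ℕ → Finset ℕ) (N : ℕ) (hω : ∀ i < N, ω i ⊆ clus R D i) (hG : G.Nonempty) :
    ((range N : Finset ℕ) : Set ℕ).PairwiseDisjoint (fun i => X.filter (fun n => sh G n ⊆ ω i)) := by
  intro i hi j hj hij
  rw [Function.onFun, disjoint_left]
  intro n h1 h2
  rw [mem_filter] at h1 h2
  obtain ⟨g0, hg0⟩ := hG
  have h3 := (mem_clus R D i _).1 (hω i (by simpa using hi) ((sh_sub _ _ _).1 h1.2 g0 hg0))
  have h4 := (mem_clus R D j _).1 (hω j (by simpa using hj) ((sh_sub _ _ _).1 h2.2 g0 hg0))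
  exact hij (h3.2.symm.trans h4.2)

end

open Classical in
theorem block_exists (R : Finset ℕ) (D P N : ℕ) (hP : 1 ≤ P) (hN : ∀ n ∈ R, n < N)
    (hclus : ∀ i, (clus R D i).card ≤ P)
    (F : Finset ℕ → Prop) (hF : ∀ U V, F U → V ⊆ U → F V) (hsh : ∀ G n, F G ↔ F (sh G n)) (h0 : F ∅)
    (pr : ℕ → ℝ) (hpr : ∀ n ∈ R, 0 ≤ pr n) (hpr1 : ∀ n ∈ R, pr n ≤ 1)
    (hprod : ∀ i, ∏ n ∈ clus R D i, (1 + pr n) ≤ 2)
    (T : Finset (Finset ℕ × Finset ℕ))
    (hT : ∀ t ∈ T, t.1.Nonempty ∧ F t.1 ∧ t.1 ⊆ range (D + 1)) :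
    ∃ A ⊆ R, (∀ G : Finset ℕ, G.Nonempty → G ⊆ range (D + 1) → ¬ F G → ∀ n, ¬ sh G n ⊆ A) ∧
      ∀ t ∈ T, |(((t.2.filter (fun n => sh t.1 n ⊆ A)).card : ℕ) : ℝ) -
        ∑ n ∈ t.2.filter (fun n => sh t.1 n ⊆ R), ∏ g ∈ t.1, pr (g + n)| ≤
        P * Real.sqrt ((t.2.card : ℝ) + 1) * (Real.log (2 * T.card) + 1) := by
  have hPr : (1 : ℝ) ≤ P := by exact_mod_cast hP
  set C : ℕ → Finset ℕ := fun i => clus R D i with hC
  set S : ℕ → Finset (Finset ℕ) := fun i => (C i).powerset.filter F with hS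
  set w : ℕ → Finset ℕ → ℝ := fun i U => law F pr (C i) U with hw
  set E : ℕ → (Finset ℕ × Finset ℕ) → ℝ := fun i t =>
    ∑ n ∈ t.2.filter (fun n => sh t.1 n ⊆ C i), ∏ g ∈ t.1, pr (g + n) with hE
  set f : ℕ → (Finset ℕ × Finset ℕ) → Finset ℕ → ℝ := fun i t U =>
    (((t.2.filter (fun n => sh t.1 n ⊆ U)).card : ℕ) : ℝ) - E i t with hf
  set c : ℕ → (Finset ℕ × Finset ℕ) → ℝ := fun i t =>
    (((t.2.filter (fun n => sh t.1 n ⊆ C i)).card : ℕ) : ℝ) with hc
  set θ : (Finset ℕ × Finset ℕ) → ℝ := fun t => 1 / (P * Real.sqrt ((t.2.card : ℝ) + 1)) with hθ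
  have hprC : ∀ i, ∀ n ∈ C i, 0 ≤ pr n := fun i n hn => hpr n (clus_sub R D i hn)
  have hprC1 : ∀ i, ∀ n ∈ C i, pr n ≤ 1 := fun i n hn => hpr1 n (clus_sub R D i hn)
  -- sums over S i
  have hsumS : ∀ i, ∀ g : Finset ℕ → ℝ, ∑ U ∈ S i, w i U * g U = ∑ U ∈ (C i).powerset, w i U * g U := by
    intro i g
    apply sum_subset (filter_subset _ _)
    intro U hU hU2
    have : ¬ F U := fun h => hU2 (mem_filter.2 ⟨hU, h⟩)
    simp only [hw]
    rw [law_zero F hF pr (C i) U this, zero_mul]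
  have hw0 : ∀ i, ∀ U ∈ S i, 0 ≤ w i U := by
    intro i U hU
    rw [hS, mem_filter, mem_powerset] at hU
    exact law_nonneg F hF pr (C i) U hU.1 (hprC i) (hprod i)
  have hw1 : ∀ i, ∑ U ∈ S i, w i U = 1 := by
    intro i
    have h1 := hsumS i (fun _ => 1)
    simp only [mul_one] at h1
    rw [h1]
    have h2 := law_inv F pr (C i) ∅ (empty_subset _)
    have h3 : (C i).powerset.filter (fun U => ∅ ⊆ U) = (C i).powerset := by
      apply filter_true_of_mem
      intro U _
      exact empty_subset _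
    rw [h3] at h2
    simp only [hw]
    rw [h2]
    unfold rho
    rw [if_pos h0, prod_empty]
  have hf0 : ∀ i, ∀ t ∈ T, ∑ U ∈ S i, w i U * f i t U = 0 := by
    intro i t ht
    have h1 : ∑ U ∈ S i, w i U * f i t U = ∑ U ∈ S i, w i U * (((t.2.filter (fun n => sh t.1 n ⊆ U)).card : ℕ) : ℝ) -
        E i t * ∑ U ∈ S i, w i U := by
      rw [mul_sum, ← sum_sub_distrib]
      exact sum_congr rfl fun U _ => by simp only [hf]; ring
    rw [h1, hw1 i, mul_one, hsumS i, sub_eq_zero]
    have h2 : ∀ U ∈ (C i).powerset, w i U * (((t.2.filter (fun n => sh t.1 n ⊆ U)).card : ℕ) : ℝ) =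
        ∑ n ∈ t.2, if sh t.1 n ⊆ U then w i U else 0 := by
      intro U _
      rw [← sum_filter, sum_const, nsmul_eq_mul, mul_comm]
    rw [sum_congr rfl h2, sum_comm]
    have h3 : ∀ n ∈ t.2, (∑ U ∈ (C i).powerset, if sh t.1 n ⊆ U then w i U else 0) =
        if sh t.1 n ⊆ C i then ∏ g ∈ t.1, pr (g + n) else 0 := by
      intro n _
      rw [← sum_filter]
      split_ifs with h4
      · simp only [hw]
        rw [law_inv F pr (C i) (sh t.1 n) h4]
        unfold rho
        rw [if_pos ((hsh t.1 n).1 (hT t ht).2.1)]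
        unfold sh
        rw [prod_image]
        intro a _ b _ hab
        exact Nat.add_right_cancel hab
      · apply sum_eq_zero
        intro U hU
        rw [mem_filter, mem_powerset] at hU
        exact absurd (hU.2.trans hU.1) h4
    rw [sum_congr rfl h3, ← sum_filter]
  have hprodg : ∀ i, ∀ t : Finset ℕ × Finset ℕ, ∀ n ∈ t.2.filter (fun n => sh t.1 n ⊆ C i),
      0 ≤ ∏ g ∈ t.1, pr (g + n) ∧ ∏ g ∈ t.1, pr (g + n) ≤ 1 := by
    intro i t n hn
    rw [mem_filter, sh_sub] at hn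
    exact ⟨prod_nonneg fun g hg => hprC i _ (hn.2 g hg),
      prod_le_one (fun g hg => hprC i _ (hn.2 g hg)) (fun g hg => hprC1 i _ (hn.2 g hg))⟩
  have hfc : ∀ i, ∀ t ∈ T, ∀ U ∈ S i, |f i t U| ≤ c i t := by
    intro i t _ U hU
    rw [hS, mem_filter, mem_powerset] at hU
    have h1 : (((t.2.filter (fun n => sh t.1 n ⊆ U)).card : ℕ) : ℝ) ≤ c i t := by
      simp only [hc]
      have : (t.2.filter (fun n => sh t.1 n ⊆ U)).card ≤ (t.2.filter (fun n => sh t.1 n ⊆ C i)).card := by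
        apply card_le_card
        intro n hn
        rw [mem_filter] at hn ⊢
        exact ⟨hn.1, hn.2.trans hU.1⟩
      exact_mod_cast this
    have h2 : 0 ≤ E i t := sum_nonneg fun n hn => (hprodg i t n hn).1
    have h3 : E i t ≤ c i t := by
      simp only [hE, hc]
      calc _ ≤ ∑ n ∈ t.2.filter (fun n => sh t.1 n ⊆ C i), (1 : ℝ) := sum_le_sum fun n hn => (hprodg i t n hn).2
        _ = _ := by rw [sum_const, nsmul_eq_mul, mul_one]
    have h4 : (0 : ℝ) ≤ (((t.2.filter (fun n => sh t.1 n ⊆ U)).card : ℕ) : ℝ) := Nat.cast_nonneg _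
    simp only [hf]
    rw [abs_le]
    constructor <;> linarith
  have hcP : ∀ i, ∀ t ∈ T, c i t ≤ P := by
    intro i t ht
    obtain ⟨g0, hg0⟩ := (hT t ht).1
    have h1 : (t.2.filter (fun n => sh t.1 n ⊆ C i)).card ≤ (C i).card := by
      apply card_le_card_of_injOn (fun n => g0 + n)
      · intro n hn
        have hn' := mem_filter.1 (mem_coe.1 hn)
        exact mem_coe.2 ((sh_sub _ _ _).1 hn'.2 g0 hg0)
      · intro a _ b _ hab
        exact Nat.add_left_cancel hab
    have h2 := h1.trans (hclus i)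
    simp only [hc]
    exact_mod_cast h2
  have hc0 : ∀ i t, 0 ≤ c i t := fun i t => Nat.cast_nonneg _
  have hsq : ∀ t : Finset ℕ × Finset ℕ, 1 ≤ Real.sqrt ((t.2.card : ℝ) + 1) := by
    intro t
    rw [Real.one_le_sqrt]
    have : (0 : ℝ) ≤ t.2.card := Nat.cast_nonneg _
    linarith
  have hθ0 : ∀ t ∈ T, 0 < θ t := by
    intro t _
    have := hsq t
    simp only [hθ]
    positivity
  have hθc : ∀ i, ∀ t ∈ T, θ t * c i t ≤ 1 := by
    intro i t ht
    have h1 := hsq t
    have h2 := hcP i t ht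
    simp only [hθ]
    rw [one_div, inv_mul_le_iff₀ (by positivity), mul_one]
    calc c i t ≤ P := h2
      _ = P * 1 := (mul_one _).symm
      _ ≤ _ := mul_le_mul_of_nonneg_left h1 (by linarith)
  obtain ⟨ω, hω, hb⟩ := choice' N S w T f c θ hw0 hw1 hf0 hθ0 hθc hfc
  have hωC : ∀ i < N, ω i ⊆ clus R D i := by
    intro i hi
    have := hω i hi
    rw [hS, mem_filter, mem_powerset] at this
    exact this.1
  have hωF : ∀ i < N, F (ω i) := by
    intro i hi
    have := hω i hi
    rw [hS, mem_filter, mem_powerset] at this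
    exact this.2
  have hRN : (range N).biUnion C = R := by
    ext n
    rw [mem_biUnion]
    constructor
    · rintro ⟨i, _, h⟩
      exact clus_sub R D i h
    · intro h
      refine ⟨cl R D n, mem_range.2 (lt_of_le_of_lt (cl_le R D n) (hN n h)), (mem_clus R D _ _).2 ⟨h, rfl⟩⟩
  refine ⟨(range N).biUnion ω, ?_, ?_, ?_⟩
  · intro n hn
    rw [mem_biUnion] at hn
    obtain ⟨i, hi, h⟩ := hn
    exact clus_sub R D i (hωC i (mem_range.1 hi) h)
  · intro G hG hGD hFG n hsub
    have h1 : n ∈ ({n} : Finset ℕ).filter (fun n => sh G n ⊆ (range N).biUnion ω) :=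
      mem_filter.2 ⟨mem_singleton_self n, hsub⟩
    rw [decomp R D G {n} ω N hωC hG hGD, mem_biUnion] at h1
    obtain ⟨i, hi, h2⟩ := h1
    rw [mem_filter] at h2
    exact hFG ((hsh G n).2 (hF _ _ (hωF i (mem_range.1 hi)) h2.2))
  · intro t ht
    obtain ⟨hG, _, hGD⟩ := hT t ht
    have h1 : (((t.2.filter (fun n => sh t.1 n ⊆ (range N).biUnion ω)).card : ℕ) : ℝ) =
        ∑ i ∈ range N, (((t.2.filter (fun n => sh t.1 n ⊆ ω i)).card : ℕ) : ℝ) := by
      rw [decomp R D t.1 t.2 ω N hωC hG hGD, card_biUnion]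
      · push_cast
        rfl
      · intro i hi j hj hij
        exact disj R D t.1 t.2 ω N hωC hG (by simpa using hi) (by simpa using hj) hij
    have h2 : ∑ n ∈ t.2.filter (fun n => sh t.1 n ⊆ R), ∏ g ∈ t.1, pr (g + n) = ∑ i ∈ range N, E i t := by
      have h3 := decomp R D t.1 t.2 C N (fun i _ => Subset.refl _) hG hGD
      rw [hRN] at h3
      rw [h3, sum_biUnion]
      exact disj R D t.1 t.2 C N (fun i _ => Subset.refl _) hG
    rw [h1, h2, ← sum_sub_distrib]
    have h3 := hb t ht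
    have h4 : ∑ i ∈ range N, c i t ^ 2 ≤ P * (t.2.card : ℝ) := by
      have h5 : ∑ i ∈ range N, c i t ≤ (t.2.card : ℝ) := by
        have h6 : ∑ i ∈ range N, (t.2.filter (fun n => sh t.1 n ⊆ C i)).card ≤ t.2.card := by
          rw [← card_biUnion]
          · apply card_le_card
            intro n hn
            rw [mem_biUnion] at hn
            obtain ⟨i, _, h⟩ := hn
            exact (mem_filter.1 h).1
          · intro i hi j hj hij
            exact disj R D t.1 t.2 C N (fun i _ => Subset.refl _) hG (by simpa using hi) (by simpa using hj) hij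
        simp only [hc]
        exact_mod_cast h6
      calc ∑ i ∈ range N, c i t ^ 2 ≤ ∑ i ∈ range N, P * c i t := by
            refine sum_le_sum fun i _ => ?_
            rw [sq]
            exact mul_le_mul_of_nonneg_right (hcP i t ht) (hc0 i t)
        _ = P * ∑ i ∈ range N, c i t := by rw [mul_sum]
        _ ≤ _ := mul_le_mul_of_nonneg_left h5 (by linarith)
    refine h3.trans ?_
    have hs := hsq t
    set s := Real.sqrt ((t.2.card : ℝ) + 1) with hsdef
    have hs0 : 0 < s := by linarith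
    have hss : s * s = (t.2.card : ℝ) + 1 := Real.mul_self_sqrt (by positivity)
    have h5 : Real.log (2 * T.card) / θ t = P * s * Real.log (2 * T.card) := by
      simp only [hθ]
      rw [div_div_eq_mul_div, div_one, mul_comm]
    have h6 : θ t * ∑ i ∈ range N, c i t ^ 2 ≤ P * s := by
      simp only [hθ]
      rw [one_div, inv_mul_le_iff₀ (by positivity)]
      calc ∑ i ∈ range N, c i t ^ 2 ≤ P * (t.2.card : ℝ) := h4
        _ ≤ P * (s * s) := mul_le_mul_of_nonneg_left (by rw [hss]; linarith) (by linarith)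
        _ ≤ P * (s * s) * P := by
            have : 0 ≤ (P : ℝ) * (s * s) := by positivity
            nlinarith
        _ = _ := by ring
    rw [h5]
    linarith

end Pool.Agent.K4H14.IP
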