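import Mathlib

/-!
Derandomisation: choices in finitely many independent finite probability spaces with all test sums
close to their means (method of conditional expectations with an exponential potential).
-/

set_option autoImplicit false

namespace Pool.Agent.K4H14.IP

open Finset

lemma exp_mean {β : Type} (S : Finset β) (w f : β → ℝ) (θ c : ℝ) (hw : ∀ b ∈ S, 0 ≤ w b)
    (hw1 : ∑ b ∈ S, w b = 1) (hf0 : ∑ b ∈ S, w b * f b = 0) (hθc : |θ| * c ≤ 1)
    (hfc : ∀ b ∈ S, |f b| ≤ c) :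
    ∑ b ∈ S, w b * Real.exp (θ * f b) ≤ Real.exp ((θ * c) ^ 2) := by
  have h1 : ∀ b ∈ S, Real.exp (θ * f b) ≤ 1 + θ * f b + (θ * c) ^ 2 := by
    intro b hb
    have h2 : |θ * f b| ≤ |θ| * c := by
      rw [abs_mul]
      exact mul_le_mul_of_nonneg_left (hfc b hb) (abs_nonneg _)
    have h3 := Real.abs_exp_sub_one_sub_id_le (h2.trans hθc)
    have h4 : (θ * f b) ^ 2 ≤ (θ * c) ^ 2 := by
      rw [← sq_abs (θ * f b), mul_pow θ c, ← sq_abs θ, ← mul_pow]
      exact pow_le_pow_left₀ (abs_nonneg _) h2 2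
    have h5 := (abs_le.1 h3).2
    linarith
  calc ∑ b ∈ S, w b * Real.exp (θ * f b) ≤ ∑ b ∈ S, w b * (1 + θ * f b + (θ * c) ^ 2) :=
        sum_le_sum fun b hb => mul_le_mul_of_nonneg_left (h1 b hb) (hw b hb)
    _ = (1 + (θ * c) ^ 2) * ∑ b ∈ S, w b + θ * ∑ b ∈ S, w b * f b := by
        rw [mul_sum, mul_sum, ← sum_add_distrib]
        exact sum_congr rfl fun b _ => by ring
    _ = (θ * c) ^ 2 + 1 := by rw [hw1, hf0]; ring
    _ ≤ _ := Real.add_one_le_exp _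

lemma step {β τ : Type} (S : Finset β) (w : β → ℝ) (T : Finset τ) (f : τ → β → ℝ) (c θ : τ → ℝ)
    (a a' : τ → ℝ) (ha : ∀ t ∈ T, 0 ≤ a t) (ha' : ∀ t ∈ T, 0 ≤ a' t)
    (hw : ∀ b ∈ S, 0 ≤ w b) (hw1 : ∑ b ∈ S, w b = 1) (hf0 : ∀ t ∈ T, ∑ b ∈ S, w b * f t b = 0)
    (hθ : ∀ t ∈ T, 0 < θ t) (hθc : ∀ t ∈ T, θ t * c t ≤ 1) (hfc : ∀ t ∈ T, ∀ b ∈ S, |f t b| ≤ c t) :
    ∃ b ∈ S, ∑ t ∈ T, (a t * Real.exp (θ t * f t b) + a' t * Real.exp (-(θ t * f t b))) ≤
      ∑ t ∈ T, (a t + a' t) * Real.exp ((θ t * c t) ^ 2) := by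
  by_contra hcon
  push Not at hcon
  have h1 : ∑ b ∈ S, w b * ∑ t ∈ T, (a t * Real.exp (θ t * f t b) + a' t * Real.exp (-(θ t * f t b))) ≤
      ∑ t ∈ T, (a t + a' t) * Real.exp ((θ t * c t) ^ 2) := by
    have e : ∑ b ∈ S, w b * ∑ t ∈ T, (a t * Real.exp (θ t * f t b) + a' t * Real.exp (-(θ t * f t b))) =
        ∑ t ∈ T, (a t * ∑ b ∈ S, w b * Real.exp (θ t * f t b) +
          a' t * ∑ b ∈ S, w b * Real.exp ((-θ t) * f t b)) := by
      simp_rw [mul_sum]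
      rw [sum_comm]
      refine sum_congr rfl fun t _ => ?_
      rw [← sum_add_distrib]
      refine sum_congr rfl fun b _ => ?_
      rw [neg_mul]
      ring
    rw [e]
    refine sum_le_sum fun t ht => ?_
    have h2 := exp_mean S w (f t) (θ t) (c t) hw hw1 (hf0 t ht)
      (by rw [abs_of_pos (hθ t ht)]; exact hθc t ht) (hfc t ht)
    have h3 := exp_mean S w (f t) (-θ t) (c t) hw hw1 (hf0 t ht)
      (by rw [abs_neg, abs_of_pos (hθ t ht)]; exact hθc t ht) (hfc t ht)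
    have e2 : (-θ t * c t) ^ 2 = (θ t * c t) ^ 2 := by ring
    rw [e2] at h3
    have h4 := mul_le_mul_of_nonneg_left h2 (ha t ht)
    have h5 := mul_le_mul_of_nonneg_left h3 (ha' t ht)
    linarith
  set V := ∑ t ∈ T, (a t + a' t) * Real.exp ((θ t * c t) ^ 2) with hV
  have h2 : V < ∑ b ∈ S, w b * ∑ t ∈ T, (a t * Real.exp (θ t * f t b) + a' t * Real.exp (-(θ t * f t b))) := by
    have e : V = ∑ b ∈ S, w b * V := by rw [← sum_mul, hw1, one_mul]
    rw [e]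
    apply sum_lt_sum
    · intro b hb
      exact mul_le_mul_of_nonneg_left (hcon b hb).le (hw b hb)
    · have : ∃ b ∈ S, 0 < w b := by
        by_contra hc
        push Not at hc
        have h3 : ∑ b ∈ S, w b ≤ 0 := sum_nonpos hc
        linarith
      obtain ⟨b, hb, hb0⟩ := this
      exact ⟨b, hb, mul_lt_mul_of_pos_left (hcon b hb) hb0⟩
  linarith

theorem choice {β τ : Type} [Inhabited β] (m : ℕ) (S : ℕ → Finset β) (w : ℕ → β → ℝ) (T : Finset τ)
    (f : ℕ → τ → β → ℝ) (c : ℕ → τ → ℝ) (θ : τ → ℝ)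
    (hw : ∀ i, ∀ b ∈ S i, 0 ≤ w i b) (hw1 : ∀ i, ∑ b ∈ S i, w i b = 1)
    (hf0 : ∀ i, ∀ t ∈ T, ∑ b ∈ S i, w i b * f i t b = 0)
    (hθ : ∀ t ∈ T, 0 < θ t) (hθc : ∀ i, ∀ t ∈ T, θ t * c i t ≤ 1)
    (hfc : ∀ i, ∀ t ∈ T, ∀ b ∈ S i, |f i t b| ≤ c i t) :
    ∃ ω : ℕ → β, (∀ i < m, ω i ∈ S i) ∧
      ∑ t ∈ T, (Real.exp (θ t * ∑ i ∈ range m, f i t (ω i)) + Real.exp (-(θ t * ∑ i ∈ range m, f i t (ω i)))) *
        Real.exp (-∑ i ∈ range m, (θ t * c i t) ^ 2) ≤ 2 * T.card := by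
  classical
  induction m with
  | zero =>
    refine ⟨fun _ => default, fun i hi => absurd hi (Nat.not_lt_zero _), ?_⟩
    simp
    norm_num
    linarith
  | succ m ih =>
    obtain ⟨ω, hω, hb⟩ := ih
    obtain ⟨b, hbS, hb2⟩ := step (S m) (w m) T (f m) (c m) θ
      (fun t => Real.exp (θ t * ∑ i ∈ range m, f i t (ω i)) * Real.exp (-∑ i ∈ range (m + 1), (θ t * c i t) ^ 2))
      (fun t => Real.exp (-(θ t * ∑ i ∈ range m, f i t (ω i))) * Real.exp (-∑ i ∈ range (m + 1), (θ t * c i t) ^ 2))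
      (fun t _ => by positivity) (fun t _ => by positivity) (hw m) (hw1 m) (hf0 m) hθ (hθc m) (hfc m)
    refine ⟨fun i => if i = m then b else ω i, fun i hi => ?_, ?_⟩
    · by_cases him : i = m
      · subst him; simpa using hbS
      · simpa [him] using hω i (by omega)
    · have e : ∀ t, ∑ i ∈ range (m + 1), f i t (if i = m then b else ω i) =
          ∑ i ∈ range m, f i t (ω i) + f m t b := by
        intro t
        rw [sum_range_succ]
        congr 1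
        · refine sum_congr rfl fun i hi => ?_
          rw [if_neg (by have := mem_range.1 hi; omega)]
        · rw [if_pos rfl]
      calc _ = ∑ t ∈ T, (Real.exp (θ t * ∑ i ∈ range m, f i t (ω i)) * Real.exp (-∑ i ∈ range (m + 1), (θ t * c i t) ^ 2) * Real.exp (θ t * f m t b) +
          Real.exp (-(θ t * ∑ i ∈ range m, f i t (ω i))) * Real.exp (-∑ i ∈ range (m + 1), (θ t * c i t) ^ 2) * Real.exp (-(θ t * f m t b))) := by
            refine sum_congr rfl fun t _ => ?_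
            rw [e t, mul_add, neg_add, Real.exp_add, Real.exp_add]
            ring
        _ ≤ _ := hb2
        _ = ∑ t ∈ T, (Real.exp (θ t * ∑ i ∈ range m, f i t (ω i)) + Real.exp (-(θ t * ∑ i ∈ range m, f i t (ω i)))) *
            Real.exp (-∑ i ∈ range m, (θ t * c i t) ^ 2) := by
            refine sum_congr rfl fun t _ => ?_
            rw [sum_range_succ, neg_add, Real.exp_add, ← add_mul]
            have : Real.exp (-(θ t * c m t) ^ 2) * Real.exp ((θ t * c m t) ^ 2) = 1 := by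
              rw [← Real.exp_add]; simp
            calc _ = (Real.exp (θ t * ∑ i ∈ range m, f i t (ω i)) + Real.exp (-(θ t * ∑ i ∈ range m, f i t (ω i)))) *
                Real.exp (-∑ i ∈ range m, (θ t * c i t) ^ 2) *
                (Real.exp (-(θ t * c m t) ^ 2) * Real.exp ((θ t * c m t) ^ 2)) := by ring
              _ = _ := by rw [this, mul_one]
        _ ≤ _ := hb

theorem choice' {β τ : Type} [Inhabited β] (m : ℕ) (S : ℕ → Finset β) (w : ℕ → β → ℝ) (T : Finset τ)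
    (f : ℕ → τ → β → ℝ) (c : ℕ → τ → ℝ) (θ : τ → ℝ)
    (hw : ∀ i, ∀ b ∈ S i, 0 ≤ w i b) (hw1 : ∀ i, ∑ b ∈ S i, w i b = 1)
    (hf0 : ∀ i, ∀ t ∈ T, ∑ b ∈ S i, w i b * f i t b = 0)
    (hθ : ∀ t ∈ T, 0 < θ t) (hθc : ∀ i, ∀ t ∈ T, θ t * c i t ≤ 1)
    (hfc : ∀ i, ∀ t ∈ T, ∀ b ∈ S i, |f i t b| ≤ c i t) :
    ∃ ω : ℕ → β, (∀ i < m, ω i ∈ S i) ∧ ∀ t ∈ T,
      |∑ i ∈ range m, f i t (ω i)| ≤ Real.log (2 * T.card) / θ t + θ t * ∑ i ∈ range m, c i t ^ 2 := by
  obtain ⟨ω, hω, hb⟩ := choice m S w T f c θ hw hw1 hf0 hθ hθc hfc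
  refine ⟨ω, hω, fun t ht => ?_⟩
  set s := ∑ i ∈ range m, f i t (ω i) with hs
  have hT : (1 : ℝ) ≤ T.card := by
    have : 1 ≤ T.card := card_pos.2 ⟨t, ht⟩
    exact_mod_cast this
  have h1 : (Real.exp (θ t * s) + Real.exp (-(θ t * s))) * Real.exp (-∑ i ∈ range m, (θ t * c i t) ^ 2) ≤ 2 * T.card := by
    refine le_trans ?_ hb
    exact single_le_sum (f := fun t => (Real.exp (θ t * ∑ i ∈ range m, f i t (ω i)) + Real.exp (-(θ t * ∑ i ∈ range m, f i t (ω i)))) *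
        Real.exp (-∑ i ∈ range m, (θ t * c i t) ^ 2)) (fun t _ => by positivity) ht
  have h2 : Real.exp (|θ t * s|) ≤ Real.exp (θ t * s) + Real.exp (-(θ t * s)) := by
    rcases abs_cases (θ t * s) with ⟨h, _⟩ | ⟨h, _⟩ <;> rw [h]
    · linarith [Real.exp_pos (-(θ t * s))]
    · linarith [Real.exp_pos (θ t * s)]
  have h3 : Real.exp (|θ t * s| - ∑ i ∈ range m, (θ t * c i t) ^ 2) ≤ 2 * T.card := by
    rw [sub_eq_add_neg, Real.exp_add]
    exact (mul_le_mul_of_nonneg_right h2 (Real.exp_pos _).le).trans h1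
  have h4 : |θ t * s| - ∑ i ∈ range m, (θ t * c i t) ^ 2 ≤ Real.log (2 * T.card) := by
    rw [Real.le_log_iff_exp_le (by linarith)]
    exact h3
  have hpos := hθ t ht
  rw [abs_mul, abs_of_pos hpos] at h4
  have e : ∑ i ∈ range m, (θ t * c i t) ^ 2 = θ t * (θ t * ∑ i ∈ range m, c i t ^ 2) := by
    rw [mul_sum, mul_sum]
    exact sum_congr rfl fun i _ => by ring
  rw [e] at h4
  have h5 : θ t * |s| ≤ Real.log (2 * T.card) + θ t * (θ t * ∑ i ∈ range m, c i t ^ 2) := by linarith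
  calc |s| = θ t * |s| / θ t := by field_simp
    _ ≤ (Real.log (2 * T.card) + θ t * (θ t * ∑ i ∈ range m, c i t ^ 2)) / θ t :=
        div_le_div_of_nonneg_right h5 hpos.le
    _ = _ := by field_simp

end Pool.Agent.K4H14.IP
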