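import Pool.Agent.K4H14.IP.SingS

/-!
Counting the terms of a progression all of whose translates by a pattern have no small prime factor.
-/

set_option autoImplicit false

namespace Pool.Agent.K4H14.IP

open Finset
open Pool.Agent.H373R2.T7 (pz mem_pz Vz PerB nuB)

/-- the condition at `p` -/
def Qp (G : Finset ℕ) (u q : ℕ) (p n : ℕ) : Prop := ¬ p ∣ q ∧ ∃ g ∈ G, p ∣ u + q * n + g

theorem Qp_per (G : Finset ℕ) (u q p n : ℕ) : Qp G u q p n ↔ Qp G u q p (n % p) := by
  unfold Qp
  have h : ∀ g, (p ∣ u + q * n + g ↔ p ∣ u + q * (n % p) + g) := by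
    intro g
    have h1 : u + q * n + g ≡ u + q * (n % p) + g [MOD p] := by
      apply Nat.ModEq.add_right
      apply Nat.ModEq.add_left
      apply Nat.ModEq.mul_left
      exact (Nat.mod_modEq n p).symm
    rw [Nat.dvd_iff_mod_eq_zero, Nat.dvd_iff_mod_eq_zero, h1]
  constructor
  · rintro ⟨h1, g, hg, h2⟩
    exact ⟨h1, g, hg, (h g).1 h2⟩
  · rintro ⟨h1, g, hg, h2⟩
    exact ⟨h1, g, hg, (h g).2 h2⟩

theorem nuB_Qp (G : Finset ℕ) (u q p : ℕ) (hp : p.Prime) :
    nuB (Qp G u q) p = if p ∣ q then 0 else nu G p := by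
  classical
  unfold nuB
  split_ifs with hd
  · rw [card_eq_zero, filter_eq_empty_iff]
    intro r _ h
    exact h.1 hd
  · haveI : Fact p.Prime := ⟨hp⟩
    have hq0 : (q : ZMod p) ≠ 0 := by
      rw [Ne, ZMod.natCast_eq_zero_iff]
      exact hd
    set φ : ℕ → ℕ := fun r => (-((u : ZMod p) + q * r)).val with hφ
    have hval : ∀ g r : ℕ, (p ∣ u + q * r + g ↔ φ r = g % p) := by
      intro g r
      rw [← ZMod.natCast_eq_zero_iff]
      simp only [hφ]
      push_cast
      rw [← ZMod.val_natCast, ZMod.val_injective p |>.eq_iff]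
      constructor
      · intro h
        rw [neg_eq_iff_add_eq_zero]
        exact h
      · intro h
        rw [neg_eq_iff_add_eq_zero] at h
        exact h
    have hinj : Set.InjOn φ (range p : Finset ℕ) := by
      intro r hr r' hr' h
      rw [mem_coe, mem_range] at hr hr'
      simp only [hφ] at h
      rw [ZMod.val_injective p |>.eq_iff, neg_inj, add_right_inj] at h
      have h2 := mul_left_cancel₀ hq0 h
      rw [ZMod.natCast_eq_natCast_iff'] at h2
      rwa [Nat.mod_eq_of_lt hr, Nat.mod_eq_of_lt hr'] at h2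
    have himg : ((range p).filter (fun r => Qp G u q p r)).image φ = G.image (· % p) := by
      ext m
      rw [mem_image, mem_image]
      constructor
      · rintro ⟨r, hr, rfl⟩
        rw [mem_filter] at hr
        obtain ⟨_, g, hg, h⟩ := hr.2
        exact ⟨g, hg, ((hval g r).1 h).symm⟩
      · rintro ⟨g, hg, rfl⟩
        have h1 : p ∣ u + q * ((-((u : ZMod p) + g)) * (q : ZMod p)⁻¹).val + g := by
          rw [← ZMod.natCast_eq_zero_iff]
          push_cast
          rw [ZMod.natCast_zmod_val]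
          field_simp
          ring
        refine ⟨((-((u : ZMod p) + g)) * (q : ZMod p)⁻¹).val, mem_filter.2 ⟨mem_range.2 (ZMod.val_lt _), hd, g, hg, h1⟩, ?_⟩
        exact (hval g _).1 h1
    unfold nu
    rw [← himg, card_image_of_injOn]
    exact hinj.mono (by
      intro r hr
      exact mem_coe.2 (filter_subset _ _ (mem_coe.1 hr)))

theorem per_Qp (G : Finset ℕ) (u q : ℕ) : PerB (Qp G u q) G.card where
  per := fun p n => Qp_per G u q p n
  few := fun p hp => by
    rw [nuB_Qp G u q p hp]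
    split_ifs
    · exact Nat.zero_le _
    · exact nu_le G p

theorem prod_Qp (G : Finset ℕ) (u q z : ℕ) :
    ((Vz z)⁻¹) ^ G.card * ∏ p ∈ pz z, (1 - (nuB (Qp G u q) p : ℝ) / p) = ∏ p ∈ pz z, fac G q p := by
  unfold Vz
  rw [← prod_inv_distrib, ← prod_pow, ← prod_mul_distrib]
  apply prod_congr rfl
  intro p hp
  have hpp := (mem_pz.1 hp).2
  rw [nuB_Qp G u q p hpp]
  unfold fac
  rw [inv_pow, mul_comm, ← div_eq_mul_inv]
  split_ifs
  · simp
  · rfl

/-- free of primes up to `y` -/
def Free (y : ℕ) (G : Finset ℕ) (n : ℕ) : Prop := ∀ g ∈ G, ∀ p ∈ pz y, ¬ p ∣ n + g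

theorem free_iff (y : ℕ) (G : Finset ℕ) (u q i : ℕ) (hco : ∀ g ∈ G, Nat.Coprime (u + g) q) :
    Free y G (u + q * i) ↔ ∀ p ∈ pz y, ¬ Qp G u q p i := by
  unfold Free Qp
  constructor
  · rintro h p hp ⟨_, g, hg, h2⟩
    exact h g hg p hp h2
  · intro h g hg p hp h2
    apply h p hp
    refine ⟨fun hd => ?_, g, hg, h2⟩
    have hpp := (mem_pz.1 hp).2
    have h3 : p ∣ u + g := by
      have h4 : u + q * i + g = q * i + (u + g) := by ring
      rw [h4] at h2
      exact (Nat.dvd_add_right (Dvd.dvd.mul_right hd i)).1 h2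
    exact hpp.one_lt.ne' (Nat.dvd_one.1 ((hco g hg).gcd_eq_one ▸ Nat.dvd_gcd h3 hd))

/-- the density -/
noncomputable def al (G : Finset ℕ) (u q z : ℕ) : ℝ := ∏ p ∈ pz z, (1 - (nuB (Qp G u q) p : ℝ) / p)

theorem al_bounds (G : Finset ℕ) (u q z : ℕ) : 0 ≤ al G u q z ∧ al G u q z ≤ 1 := by
  have h : ∀ p ∈ pz z, 0 ≤ 1 - (nuB (Qp G u q) p : ℝ) / p ∧ 1 - (nuB (Qp G u q) p : ℝ) / p ≤ 1 := by
    intro p hp
    have hp0 : (0 : ℝ) < p := by exact_mod_cast (mem_pz.1 hp).2.pos
    have h1 : (nuB (Qp G u q) p : ℝ) / p ≤ 1 := by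
      rw [div_le_one hp0]
      exact_mod_cast Pool.Agent.H373R2.T7.nuB_le _ p
    have h2 : 0 ≤ (nuB (Qp G u q) p : ℝ) / p := by positivity
    exact ⟨by linarith, by linarith⟩
  exact ⟨prod_nonneg fun p hp => (h p hp).1, prod_le_one (fun p hp => (h p hp).1) (fun p hp => (h p hp).2)⟩

open Classical in
theorem free_count (G : Finset ℕ) (hG : G.Nonempty) : ∃ C0 x0 : ℕ, 1 ≤ C0 ∧ ∀ b : ℕ, C0 ≤ b →
    ∀ x y : ℕ, x0 ≤ y → y ^ (16 * (C0 * b)) ≤ x → ∀ u q : ℕ, (∀ g ∈ G, Nat.Coprime (u + g) q) → ∀ t : ℕ,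
    |((((range t).filter (fun i => Free y G (u + q * i))).card : ℕ) : ℝ) - t * al G u q y| ≤
      (1 / 2) ^ b * t + √(x : ℝ) + 1 := by
  obtain ⟨C0, x0, hC0, h⟩ := sys_fundB G.card hG.card_pos
  refine ⟨C0, x0, hC0, fun b hb x y hy hyx u q hco t => ?_⟩
  have h1 := h b hb x y hy hyx (Qp G u q) (per_Qp G u q) t
  have h2 : (((Icc 1 t).filter (fun n : ℕ => ∀ p ∈ pz y, ¬ Qp G u q p n)).card) =
      (((Icc 1 t).filter (fun i => Free y G (u + q * i))).card) := by
    congr 1
    apply filter_congr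
    intro i _
    rw [free_iff y G u q i hco]
  have hal := al_bounds G u q y
  rw [h2] at h1
  have e1 : (((range t).filter (fun i => Free y G (u + q * i))).card) ≤
      (((Icc 1 t).filter (fun i => Free y G (u + q * i))).card) + 1 := by
    have hs : (range t).filter (fun i => Free y G (u + q * i)) ⊆
        insert 0 ((Icc 1 t).filter (fun i => Free y G (u + q * i))) := by
      intro i hi
      rw [mem_filter, mem_range] at hi
      rw [mem_insert, mem_filter, mem_Icc]
      rcases Nat.eq_zero_or_pos i with h0 | h0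
      · exact Or.inl h0
      · exact Or.inr ⟨⟨h0, hi.1.le⟩, hi.2⟩
    exact (card_le_card hs).trans (card_insert_le _ _)
  have e2 : (((Icc 1 t).filter (fun i => Free y G (u + q * i))).card) ≤
      (((range t).filter (fun i => Free y G (u + q * i))).card) + 1 := by
    have hs : (Icc 1 t).filter (fun i => Free y G (u + q * i)) ⊆
        insert t ((range t).filter (fun i => Free y G (u + q * i))) := by
      intro i hi
      rw [mem_filter, mem_Icc] at hi
      rw [mem_insert, mem_filter, mem_range]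
      rcases Nat.lt_or_ge i t with h0 | h0
      · exact Or.inr ⟨h0, hi.2⟩
      · exact Or.inl (by omega)
    exact (card_le_card hs).trans (card_insert_le _ _)
  have f1 : (((((range t).filter (fun i => Free y G (u + q * i))).card) : ℕ) : ℝ) ≤
      (((((Icc 1 t).filter (fun i => Free y G (u + q * i))).card) : ℕ) : ℝ) + 1 := by exact_mod_cast e1
  have f2 : (((((Icc 1 t).filter (fun i => Free y G (u + q * i))).card) : ℕ) : ℝ) ≤
      (((((range t).filter (fun i => Free y G (u + q * i))).card) : ℕ) : ℝ) + 1 := by exact_mod_cast e2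
  have h3 : (t : ℝ) * al G u q y ≤ t := by
    calc (t : ℝ) * al G u q y ≤ t * 1 := mul_le_mul_of_nonneg_left hal.2 (Nat.cast_nonneg _)
      _ = t := mul_one _
  have h4 : (1 / 2 : ℝ) ^ b * (t * al G u q y) ≤ (1 / 2) ^ b * t :=
    mul_le_mul_of_nonneg_left h3 (by positivity)
  unfold al at h3 h4 ⊢
  have h5 := abs_le.1 h1
  rw [abs_le]
  constructor <;> linarith [h5.1, h5.2]

end Pool.Agent.K4H14.IP
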