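import Pool.Agent.K4H14.IP.Sel2

/-!
Assembly of the blocks.
-/

set_option autoImplicit false

namespace Pool.Agent.K4H14.IP

open Finset Filter
open Pool.Agent.H373R2.T7 (pz mem_pz Vz PerB nuB)

/-- the properties of the blocks -/
structure Blocks (F : Finset ℕ → Prop) (D : ℕ → ℕ) (A : ℕ → Finset ℕ) (J0 : ℕ) : Prop where
  sub : ∀ j, A j ⊆ RR j
  Dle : ∀ j, D j ≤ j
  Dinf : ∀ d, ∃ j0, ∀ j, j0 ≤ j → d ≤ D j
  forb : ∀ j, J0 ≤ j → ∀ G : Finset ℕ, G.Nonempty → G ⊆ range (D j + 1) → ¬ F G → ∀ n, ¬ sh G n ⊆ A j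
  asy : ∀ j, J0 ≤ j → ∀ G : Finset ℕ, G.Nonempty → F G → G ⊆ range (D j + 1) → ∀ u q M : ℕ,
    u < 2 ^ (j + 1) → q < 2 ^ (j + 1) → 1 ≤ q → M ≤ 2 ^ (j + 1) →
      |((((range M).filter (fun i => sh G (u + q * i) ⊆ A j)).card : ℕ) : ℝ) -
        ∑ i ∈ (range M).filter (fun i => sh G (u + q * i) ⊆ RR j), hw G (WW j) (u + q * i)| ≤
        j * √((M : ℝ) + 1) * (4 * j + 7)

theorem blocks_exist (F : Finset ℕ → Prop) (hF : Fam F) : ∃ (D : ℕ → ℕ) (A : ℕ → Finset ℕ) (J0 : ℕ), Blocks F D A J0 := by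
  classical
  obtain ⟨D, P, hDinf, hDle, j1, hD⟩ := depth
  obtain ⟨j0, hsel⟩ := sel_block F hF
  have h : ∀ j, ∃ A : Finset ℕ, A ⊆ RR j ∧ (max j0 j1 ≤ j →
      (∀ G : Finset ℕ, G.Nonempty → G ⊆ range (D j + 1) → ¬ F G → ∀ n, ¬ sh G n ⊆ A) ∧
      ∀ G : Finset ℕ, G.Nonempty → F G → G ⊆ range (D j + 1) → ∀ u q M : ℕ, u < 2 ^ (j + 1) → q < 2 ^ (j + 1) → 1 ≤ q →
        M ≤ 2 ^ (j + 1) →
        |((((range M).filter (fun i => sh G (u + q * i) ⊆ A)).card : ℕ) : ℝ) -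
          ∑ i ∈ (range M).filter (fun i => sh G (u + q * i) ⊆ RR j), hw G (WW j) (u + q * i)| ≤
          j * √((M : ℝ) + 1) * (4 * j + 7)) := by
    intro j
    by_cases hj : max j0 j1 ≤ j
    · obtain ⟨d1, d2, d3, d4, d5⟩ := hD j (by omega)
      obtain ⟨A, hA, h1, h2⟩ := hsel j (by omega) (D j) (P j) d1 (hDle j) d2 d3 d4 d5
      exact ⟨A, hA, fun _ => ⟨h1, h2⟩⟩
    · exact ⟨∅, empty_subset _, fun h => absurd h hj⟩
  choose A hA using h
  exact ⟨D, A, max j0 j1, ⟨fun j => (hA j).1, hDle, hDinf, fun j hj => ((hA j).2 hj).1, fun j hj => ((hA j).2 hj).2⟩⟩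

/-- the union of the blocks -/
def SA (A : ℕ → Finset ℕ) : Set ℕ := {n | ∃ j, n ∈ A j}

section

variable {F : Finset ℕ → Prop} {D : ℕ → ℕ} {A : ℕ → Finset ℕ} {J0 : ℕ}

theorem blk_uniq {j j' n : ℕ} (h1 : 2 ^ j ≤ n) (h2 : n < 2 ^ (j + 1)) (h3 : 2 ^ j' ≤ n) (h4 : n < 2 ^ (j' + 1)) : j = j' := by
  rw [← Nat.log_eq_of_pow_le_of_lt_pow h1 h2, ← Nat.log_eq_of_pow_le_of_lt_pow h3 h4]

theorem mem_SA_iff (hB : Blocks F D A J0) {J n g : ℕ} (h1 : 2 ^ J ≤ n) (h2 : n < 2 ^ (J + 1)) (hg : g ≤ J) :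
    g + n ∈ SA A ↔ g + n ∈ A J := by
  constructor
  · rintro ⟨j', hj'⟩
    have h3 := (mem_RR j' _).1 (hB.sub j' hj')
    rcases Nat.lt_or_ge (g + n) (2 ^ (J + 1)) with h4 | h4
    · have := blk_uniq (j := J) (j' := j') (n := g + n) (by omega) h4 (by omega) h3.1.2
      rw [this]
      exact hj'
    · exfalso
      have h5 : g + n < 2 ^ (J + 1 + 1) := by
        have : J < 2 ^ J := Nat.lt_two_pow_self
        have e : 2 ^ (J + 1 + 1) = 2 * 2 ^ (J + 1) := by ring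
        have e2 : 2 ^ (J + 1) = 2 * 2 ^ J := by ring
        omega
      have := blk_uniq (j := J + 1) (j' := j') (n := g + n) h4 h5 (by omega) h3.1.2
      subst this
      have := h3.1.1
      omega
  · intro h
    exact ⟨J, h⟩

open Classical in
theorem cnt_eq (hB : Blocks F D A J0) (G : Finset ℕ) (J u q M : ℕ) (hG : G ⊆ range (J + 1)) (hu : 2 ^ J ≤ u)
    (hlt : ∀ i < M, u + q * i < 2 ^ (J + 1)) :
    (range M).filter (fun i => ∀ g ∈ G, u + q * i + g ∈ SA A) = (range M).filter (fun i => sh G (u + q * i) ⊆ A J) := by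
  apply filter_congr
  intro i hi
  rw [sh_sub]
  apply forall_congr'
  intro g
  apply forall_congr'
  intro hg
  have h1 := mem_range.1 (hG hg)
  have h2 := mem_SA_iff hB (J := J) (n := u + q * i) (g := g) (by nlinarith) (hlt i (mem_range.1 hi)) (by omega)
  rw [← h2, add_comm]

end

/-- the initial segment below a bound -/
theorem split_exists (f : ℕ → ℕ) (hf : Monotone f) (B M : ℕ) : ∃ M1 ≤ M, (∀ i < M1, f i < B) ∧ ∀ i, M1 ≤ i → B ≤ f i ∨ M ≤ i := by
  induction M with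
  | zero => exact ⟨0, le_rfl, fun i hi => absurd hi (Nat.not_lt_zero _), fun i _ => Or.inr (Nat.zero_le _)⟩
  | succ M ih =>
    obtain ⟨M1, h1, h2, h3⟩ := ih
    by_cases h : M1 = M ∧ f M < B
    · refine ⟨M + 1, le_rfl, fun i hi => ?_, fun i hi => Or.inr hi⟩
      rcases Nat.lt_or_ge i M with h4 | h4
      · exact h2 i (by omega)
      · have : i = M := by omega
        rw [this]
        exact h.2
    · refine ⟨M1, by omega, h2, fun i hi => ?_⟩
      rcases h3 i hi with h4 | h4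
      · exact Or.inl h4
      · rcases Nat.lt_or_ge i (M + 1) with h5 | h5
        · left
          have hiM : i = M := by omega
          rcases Nat.lt_or_ge M1 M with h6 | h6
          · rcases h3 M1 le_rfl with h7 | h7
            · exact h7.trans (hf (by omega))
            · omega
          · by_contra h8
            push Not at h8
            exact h ⟨by omega, by rw [← hiM]; exact h8⟩
        · exact Or.inr h5

/-- the counting error of a progression -/
noncomputable def er (S : Set ℕ) (G : Finset ℕ) (u q M : ℕ) : ℝ :=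
  (Set.ncard {i | i < M ∧ ∀ g ∈ G, u + q * i + g ∈ S} : ℝ) -
    sing G q * ∑ i ∈ range M, 1 / Real.log ((u + q * i : ℕ) : ℝ) ^ G.card

open Classical in
theorem ncard_eq (S : Set ℕ) (G : Finset ℕ) (u q M : ℕ) :
    Set.ncard {i | i < M ∧ ∀ g ∈ G, u + q * i + g ∈ S} = ((range M).filter (fun i => ∀ g ∈ G, u + q * i + g ∈ S)).card := by
  rw [← Set.ncard_coe_finset]
  congr 1
  ext i
  simp

theorem er_split (S : Set ℕ) (G : Finset ℕ) (u q M1 M2 : ℕ) :
    er S G u q (M1 + M2) = er S G u q M1 + er S G (u + q * M1) q M2 := by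
  classical
  unfold er
  rw [ncard_eq, ncard_eq, ncard_eq, sum_range_add, Finset.card_filter, Finset.card_filter, Finset.card_filter, sum_range_add]
  have e : ∀ i, u + q * (M1 + i) = u + q * M1 + q * i := fun i => by ring
  simp only [e]
  push_cast
  ring

theorem er_trivial (S : Set ℕ) (G : Finset ℕ) (u q M j : ℕ) (B : ℝ) (hj : 2 ≤ j) (hu : 2 ^ j ≤ u)
    (hW : WW j ≤ j * Real.log 2) (hS : |sing G q| ≤ 2 * WW j ^ G.card) (hMB : (M : ℝ) ≤ B) :
    |er S G u q M| ≤ 3 * B := by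
  classical
  have hl := Real.log_two_gt_d9
  have hM0 : (0 : ℝ) ≤ M := Nat.cast_nonneg _
  have hj2 : (2 : ℝ) ≤ j := by exact_mod_cast hj
  have h1 : ((Set.ncard {i | i < M ∧ ∀ g ∈ G, u + q * i + g ∈ S} : ℕ) : ℝ) ≤ M := by
    rw [ncard_eq]
    have := card_filter_le (range M) (fun i => ∀ g ∈ G, u + q * i + g ∈ S)
    rw [card_range] at this
    exact_mod_cast this
  have h2 : (0 : ℝ) ≤ (Set.ncard {i | i < M ∧ ∀ g ∈ G, u + q * i + g ∈ S} : ℕ) := Nat.cast_nonneg _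
  set w : ℝ := (j * Real.log 2) ^ G.card with hw
  have hw0 : 0 < w := by positivity
  have h3 : ∀ i ∈ range M, 0 ≤ 1 / Real.log ((u + q * i : ℕ) : ℝ) ^ G.card ∧
      1 / Real.log ((u + q * i : ℕ) : ℝ) ^ G.card ≤ 1 / w := by
    intro i _
    have h4 : (j : ℝ) * Real.log 2 ≤ Real.log ((u + q * i : ℕ) : ℝ) := by
      rw [← Real.log_pow]
      apply Real.log_le_log (by positivity)
      exact_mod_cast (by nlinarith : 2 ^ j ≤ u + q * i)
    have h5 : 0 < (j : ℝ) * Real.log 2 := by positivity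
    constructor
    · have : 0 ≤ Real.log ((u + q * i : ℕ) : ℝ) := by linarith
      positivity
    · exact one_div_le_one_div_of_le hw0 (pow_le_pow_left₀ h5.le h4 _)
  set L := ∑ i ∈ range M, 1 / Real.log ((u + q * i : ℕ) : ℝ) ^ G.card with hL
  have hL0 : 0 ≤ L := sum_nonneg fun i hi => (h3 i hi).1
  have hLw : L ≤ M * (1 / w) := by
    refine (sum_le_sum fun i hi => (h3 i hi).2).trans ?_
    rw [sum_const, card_range, nsmul_eq_mul]
  have hWw : WW j ^ G.card ≤ w := pow_le_pow_left₀ (WW_pos j).le hW _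
  have h6 : |sing G q * L| ≤ 2 * M := by
    rw [abs_mul, abs_of_nonneg hL0]
    calc |sing G q| * L ≤ (2 * w) * (M * (1 / w)) :=
          mul_le_mul (hS.trans (mul_le_mul_of_nonneg_left hWw (by norm_num))) hLw hL0 (by positivity)
      _ = 2 * M := by field_simp
  unfold er
  rw [← hL]
  have h7 := abs_le.1 h6
  rw [abs_le]
  constructor <;> linarith [h7.1, h7.2]

end Pool.Agent.K4H14.IP
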