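import Pool.Agent.K4H14.IP.Fin

/-!
The main estimate, the roughness and the finiteness statements.
-/

set_option autoImplicit false

namespace Pool.Agent.K4H14.IP

open Finset Filter
open Pool.Agent.H373R2.T7 (pz mem_pz Vz PerB nuB)

variable {F : Finset ℕ → Prop} {D : ℕ → ℕ} {A : ℕ → Finset ℕ} {J0 : ℕ}

theorem main_est (hB : Blocks F D A J0) (G : Finset ℕ) (hG : G.Nonempty) (hFG : F G) (K : ℕ) (hK : 1 ≤ K) :
    ∃ c : ℝ, 0 < c ∧ ∃ x0 : ℕ, ∀ x q u M : ℕ, x0 ≤ x → 1 ≤ q → x ≤ u → u + q * M ≤ 2 * x → x ≤ M ^ K →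
      (∀ g ∈ G, Nat.Coprime (u + g) q) → |er (SA A) G u q M| ≤ M * Real.exp (-c * √(Real.log x)) := by
  classical
  obtain ⟨c, hc, j0, hblk⟩ := block_est G hG (2 * K) (by omega)
  obtain ⟨s1, hs1⟩ := sing_le G
  obtain ⟨s2, hs2⟩ := WW_le_log
  obtain ⟨j1, hj1⟩ := hB.Dinf (G.sup id)
  have hl := Real.log_two_gt_d9
  set κ : ℝ := Real.log 2 / (2 * K : ℕ) with hκ
  have hκ0 : 0 < κ := by
    rw [hκ]
    have : (0 : ℝ) < (2 * K : ℕ) := by exact_mod_cast (by omega : 0 < 2 * K)
    positivity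
  set c1 := min κ c with hc1
  have hc10 : 0 < c1 := lt_min hκ0 hc
  obtain ⟨s3, hs3⟩ := poly_le 24 0 (c1 / 2) (by linarith)
  set sm := max (max 2 K) (max (max s1 s2) s3) with hsm
  set jm := max (max j0 j1) (max J0 (sm * sm)) with hjm
  refine ⟨c1 / 4, by linarith, 2 ^ jm, fun x q u M hx hq hxu hux hxM hco => ?_⟩
  have hx1 : 1 ≤ x := le_trans Nat.one_le_two_pow hx
  set j := Nat.log 2 x with hj
  have hjx : 2 ^ j ≤ x := Nat.pow_log_le_self 2 (by omega)
  have hxj : x < 2 ^ (j + 1) := Nat.lt_pow_succ_log_self (by norm_num) x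
  have hjmj : jm ≤ j := Nat.le_log_of_pow_le (by norm_num) hx
  have hs := sqrt_ge sm j (by omega)
  set s := Nat.sqrt j with hsd
  have hsj' : s ≤ j := Nat.sqrt_le_self j
  have hMK : 2 ^ j ≤ M ^ K := hjx.trans hxM
  have hM1 := (params K 1 hK le_rfl j M hMK _ rfl).1
  have hM2 : 2 ≤ M := by
    have h1 : 1 ≤ j / K := by
      rw [Nat.le_div_iff_mul_le (by omega)]
      omega
    calc 2 = 2 ^ 1 := by norm_num
      _ ≤ 2 ^ (j / K) := Nat.pow_le_pow_right (by norm_num) h1
      _ ≤ M := hM1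
  have hM0 : (0 : ℝ) < M := by exact_mod_cast (by omega : 0 < M)
  have hqx : q < 2 ^ (j + 1) := by
    have h1 : q * 2 ≤ q * M := Nat.mul_le_mul_left _ hM2
    omega
  have hsM := sqrt_small K hK j M hM1
  set e := Real.exp (-c1 * s) with he
  have he0 : 0 < e := Real.exp_pos _
  have hs0 : (0 : ℝ) ≤ s := Nat.cast_nonneg _
  have hκe : Real.exp (-κ * s) ≤ e := by
    apply Real.exp_le_exp.2
    have := mul_le_mul_of_nonneg_right (min_le_left κ c) hs0
    linarith
  have hroot : √(M : ℝ) ≤ M * (2 * e) :=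
    hsM.trans (mul_le_mul_of_nonneg_left (mul_le_mul_of_nonneg_left hκe (by norm_num)) hM0.le)
  -- the estimate of a part
  have part : ∀ J, j ≤ J → J ≤ j + 1 → ∀ u' M' : ℕ, 2 ^ J ≤ u' → (∀ i < M', u' + q * i < 2 ^ (J + 1)) → M' ≤ M →
      (∀ g ∈ G, Nat.Coprime (u' + g) q) → |er (SA A) G u' q M'| ≤ 12 * (M * e) := by
    intro J hJ1 hJ2 u' M' hu' hlt' hM' hco'
    have hGD : G ⊆ range (D J + 1) := by
      intro g hg
      rw [mem_range]
      have h1 : g ≤ G.sup id := le_sup (f := id) hg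
      have h2 := hj1 J (by omega)
      omega
    have hGJ : G ⊆ range (J + 1) := by
      intro g hg
      have h1 := mem_range.1 (hGD hg)
      have h2 := hB.Dle J
      rw [mem_range]
      omega
    by_cases hcase : 2 ^ J ≤ M' ^ (2 * K)
    · have h1 := hblk J (by omega) (D J) (hB.Dle J) hGD (A J) (hB.asy J (by omega) G hG hFG hGD) u' q M' hq hu' hlt' hcase hco'
      unfold er
      rw [ncard_eq, cnt_eq hB G J u' q M' hGJ hu' hlt']
      refine h1.trans ?_
      have h2 : Real.exp (-c * Nat.sqrt J) ≤ e := by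
        apply Real.exp_le_exp.2
        have h3 := mul_le_mul_of_nonneg_right (min_le_right κ c) hs0
        have h4 : (s : ℝ) ≤ Nat.sqrt J := by exact_mod_cast Nat.sqrt_le_sqrt hJ1
        have h5 := mul_le_mul_of_nonneg_left h4 hc.le
        linarith
      have h3 : (M' : ℝ) ≤ M := by exact_mod_cast hM'
      have h4 : (M' : ℝ) * Real.exp (-c * Nat.sqrt J) ≤ M * e :=
        mul_le_mul h3 h2 (Real.exp_pos _).le hM0.le
      have h5 : 0 ≤ (M : ℝ) * e := by positivity
      linarith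
    · push Not at hcase
      have h1 : (M' ^ 2) ^ K < (2 * M) ^ K := by
        calc (M' ^ 2) ^ K = M' ^ (2 * K) := by rw [← pow_mul]
          _ < 2 ^ J := hcase
          _ ≤ 2 ^ (j + 1) := Nat.pow_le_pow_right (by norm_num) hJ2
          _ = 2 * 2 ^ j := by ring
          _ ≤ 2 * M ^ K := Nat.mul_le_mul_left _ hMK
          _ ≤ 2 ^ K * M ^ K := by
              apply Nat.mul_le_mul_right
              calc 2 = 2 ^ 1 := by norm_num
                _ ≤ 2 ^ K := Nat.pow_le_pow_right (by norm_num) hK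
          _ = (2 * M) ^ K := by rw [mul_pow]
      have h2 : M' ^ 2 < 2 * M := lt_of_pow_lt_pow_left₀ K (Nat.zero_le _) h1
      have h3 : (M' : ℝ) ≤ 2 * √(M : ℝ) := by
        rw [show (2 : ℝ) * √(M : ℝ) = √(4 * M) by
          rw [Real.sqrt_mul (by norm_num), show (4 : ℝ) = 2 ^ 2 by norm_num, Real.sqrt_sq (by norm_num)]]
        apply Real.le_sqrt_of_sq_le
        have h4 : ((M' ^ 2 : ℕ) : ℝ) ≤ ((2 * M : ℕ) : ℝ) := by exact_mod_cast h2.le
        push_cast at h4
        linarith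
      have hu2 : 2 ^ j ≤ u' := le_trans (Nat.pow_le_pow_right (by norm_num) hJ1) hu'
      have h4 := er_trivial (SA A) G u' q M' j (2 * √(M : ℝ)) (by omega) hu2 (hs2 j (by omega))
        (hs1 j q (by omega) hq hqx) h3
      refine h4.trans ?_
      linarith
  -- the splitting
  obtain ⟨M1, hM1M, hlow, hhigh⟩ := split_exists (fun i => u + q * i)
    (fun a b hab => by show u + q * a ≤ u + q * b; exact Nat.add_le_add_left (Nat.mul_le_mul_left _ hab) _) (2 ^ (j + 1)) M
  obtain ⟨M2, hM2'⟩ : ∃ M2, M = M1 + M2 := ⟨M - M1, by omega⟩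
  have p1 := part j le_rfl (by omega) u M1 (hjx.trans hxu) hlow hM1M hco
  have p2 : |er (SA A) G (u + q * M1) q M2| ≤ 12 * (M * e) := by
    rcases Nat.eq_zero_or_pos M2 with h0 | h0
    · rw [h0]
      have : er (SA A) G (u + q * M1) q 0 = 0 := by
        unfold er
        simp
      rw [this, abs_zero]
      positivity
    · apply part (j + 1) (by omega) le_rfl (u + q * M1) M2 _ _ (by omega)
      · intro g hg
        have h1 := hco g hg
        have h2 : u + q * M1 + g = (u + g) + q * M1 := by ring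
        rw [h2]
        exact (Nat.coprime_add_mul_left_left (u + g) q M1).2 h1
      · rcases hhigh M1 le_rfl with h1 | h1
        · exact h1
        · omega
      · intro i hi
        have h1 : u + q * M1 + q * i < u + q * M := by
          have : M1 + i < M := by omega
          calc u + q * M1 + q * i = u + q * (M1 + i) := by ring
            _ < u + q * M := Nat.add_lt_add_left (Nat.mul_lt_mul_of_pos_left this hq) _
        have e2 : 2 ^ (j + 1 + 1) = 2 * 2 ^ (j + 1) := by ring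
        omega
  have htot : |er (SA A) G u q M| ≤ 24 * (M * e) := by
    have h1 : er (SA A) G u q M = er (SA A) G u q M1 + er (SA A) G (u + q * M1) q M2 := by
      have := er_split (SA A) G u q M1 M2
      rw [← hM2'] at this
      exact this
    rw [h1]
    refine (abs_add_le _ _).trans ?_
    linarith
  refine htot.trans ?_
  -- the final comparison
  have h3 := hs3 s (by omega)
  rw [pow_zero, mul_one] at h3
  have hlogx : √(Real.log x) ≤ s + 1 := by
    rw [show (s : ℝ) + 1 = √(((s : ℝ) + 1) ^ 2) by rw [Real.sqrt_sq (by linarith)]]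
    apply Real.sqrt_le_sqrt
    have h4 : Real.log x ≤ (j + 1 : ℕ) * Real.log 2 := by
      rw [← Real.log_pow]
      apply Real.log_le_log (by exact_mod_cast hx1)
      exact_mod_cast hxj.le
    have h5 : j + 1 ≤ (s + 1) ^ 2 := by
      have : j < (s + 1) * (s + 1) := Nat.lt_succ_sqrt j
      rw [sq]
      omega
    have h6 : ((j + 1 : ℕ) : ℝ) ≤ ((s : ℝ) + 1) ^ 2 := by exact_mod_cast h5
    have h7 := Real.log_two_lt_d9
    have h8 : (0 : ℝ) ≤ ((j + 1 : ℕ) : ℝ) := Nat.cast_nonneg _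
    nlinarith
  have hs2r : (2 : ℝ) ≤ s := by exact_mod_cast (by omega : 2 ≤ s)
  have h9 : 24 * e ≤ Real.exp (-(c1 / 4) * √(Real.log x)) := by
    calc 24 * e ≤ Real.exp (c1 / 2 * s) * e := mul_le_mul_of_nonneg_right h3 he0.le
      _ = Real.exp (-(c1 / 2) * s) := by
          rw [he, ← Real.exp_add]
          congr 1
          ring
      _ ≤ Real.exp (-(c1 / 4) * √(Real.log x)) := by
          apply Real.exp_le_exp.2
          nlinarith
  calc 24 * (M * e) = M * (24 * e) := by ring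
    _ ≤ M * Real.exp (-(c1 / 4) * √(Real.log x)) := mul_le_mul_of_nonneg_left h9 hM0.le

/-- the elements of the set are rough -/
theorem rough (hB : Blocks F D A J0) : ∃ n0 : ℕ, ∀ n ∈ SA A, n0 ≤ n →
    ∀ p : ℕ, p.Prime → (p : ℝ) ≤ Real.exp (√(Real.log n) / 2) → ¬ p ∣ n := by
  refine ⟨2 ^ 9, fun n hn hn0 p hp hpn hd => ?_⟩
  obtain ⟨j, hj⟩ := hn
  obtain ⟨⟨h1, h2⟩, h3⟩ := (mem_RR j n).1 (hB.sub j hj)
  apply h3 p (mem_pz.2 ⟨?_, hp⟩) hd
  have hj9 : 9 ≤ j := by
    by_contra hcon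
    push Not at hcon
    have : 2 ^ (j + 1) ≤ 2 ^ 9 := Nat.pow_le_pow_right (by norm_num) (by omega)
    omega
  have hs3 : 3 ≤ Nat.sqrt j := by rw [Nat.le_sqrt]; omega
  set s := Nat.sqrt j with hs
  have hs3r : (3 : ℝ) ≤ s := by exact_mod_cast hs3
  have hn1 : 1 ≤ n := by omega
  have hlogx : √(Real.log n) ≤ s + 1 := by
    rw [show (s : ℝ) + 1 = √(((s : ℝ) + 1) ^ 2) by rw [Real.sqrt_sq (by linarith)]]
    apply Real.sqrt_le_sqrt
    have h4 : Real.log n ≤ (j + 1 : ℕ) * Real.log 2 := by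
      rw [← Real.log_pow]
      apply Real.log_le_log (by exact_mod_cast hn1)
      exact_mod_cast h2.le
    have h5 : j + 1 ≤ (s + 1) ^ 2 := by
      have : j < (s + 1) * (s + 1) := Nat.lt_succ_sqrt j
      rw [sq]
      omega
    have h6 : ((j + 1 : ℕ) : ℝ) ≤ ((s : ℝ) + 1) ^ 2 := by exact_mod_cast h5
    have h7 := Real.log_two_lt_d9
    have h8 : (0 : ℝ) ≤ ((j + 1 : ℕ) : ℝ) := Nat.cast_nonneg _
    nlinarith
  have h5 : (p : ℝ) ≤ (2 : ℝ) ^ s := by
    refine hpn.trans ?_
    have h6 : (2 : ℝ) ^ s = Real.exp (s * Real.log 2) := by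
      rw [Real.exp_nat_mul, Real.exp_log (by norm_num)]
    rw [h6]
    apply Real.exp_le_exp.2
    have := Real.log_two_gt_d9
    nlinarith
  unfold zz
  exact_mod_cast h5

/-- the forbidden patterns occur finitely often -/
theorem forb_fin (hB : Blocks F D A J0) (h0 : F ∅) (G : Finset ℕ) (hG : ¬ F G) :
    {n : ℕ | ∀ g ∈ G, n + g ∈ SA A}.Finite := by
  have hne : G.Nonempty := by
    rw [nonempty_iff_ne_empty]
    rintro rfl
    exact hG h0
  obtain ⟨j1, hj1⟩ := hB.Dinf (G.sup id)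
  apply (Set.finite_Iio (2 ^ (max J0 j1 + 1))).subset
  intro n hn
  rw [Set.mem_Iio]
  by_contra hcon
  push Not at hcon
  have hn1 : n ≠ 0 := by
    have : 1 ≤ 2 ^ (max J0 j1 + 1) := Nat.one_le_two_pow
    omega
  set J := Nat.log 2 n with hJ
  have h1 : 2 ^ J ≤ n := Nat.pow_log_le_self 2 hn1
  have h2 : n < 2 ^ (J + 1) := Nat.lt_pow_succ_log_self (by norm_num) n
  have h3 : max J0 j1 + 1 ≤ J := Nat.le_log_of_pow_le (by norm_num) hcon
  have hGD : G ⊆ range (D J + 1) := by
    intro g hg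
    rw [mem_range]
    have h4 : g ≤ G.sup id := le_sup (f := id) hg
    have h5 := hj1 J (by omega)
    omega
  apply hB.forb J (by omega) G hne hGD hG n
  rw [sh_sub]
  intro g hg
  have h4 := mem_range.1 (hGD hg)
  have h5 := hB.Dle J
  rw [← mem_SA_iff hB h1 h2 (by omega : g ≤ J), add_comm]
  exact hn g hg

end Pool.Agent.K4H14.IP
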