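import Pool.Agent.K4H14.IP.FundE

/-!
Mertens bounds for the product of `1 - 1/p` and moduli with few reduced residues.
-/

set_option autoImplicit false

namespace Pool.Agent.K4H14.IP

open Finset
open Pool.Agent.H373R2.T7 (pz mem_pz Vz)

theorem one_sub_pos {p : ℕ} (hp : p.Prime) : 0 < 1 - 1 / (p : ℝ) := by
  have hp2 : (2 : ℝ) ≤ p := by exact_mod_cast hp.two_le
  rw [sub_pos, div_lt_one (by linarith)]; linarith

theorem Vz_pos' (z : ℕ) : 0 < Vz z := by
  unfold Vz
  exact prod_pos fun p hp => one_sub_pos (mem_pz.1 hp).2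

theorem Vz_le_one (z : ℕ) : Vz z ≤ 1 := by
  unfold Vz
  apply prod_le_one
  · intro p hp
    exact (one_sub_pos (mem_pz.1 hp).2).le
  · intro p _
    have : 0 ≤ 1 / (p : ℝ) := by positivity
    linarith

theorem inv_one_sub_le' {p : ℕ} (hp : p.Prime) :
    (1 - 1 / (p : ℝ))⁻¹ ≤ Real.exp (1 / p + 1 / ((p : ℝ) * (p - 1))) := by
  have hp2 : (2 : ℝ) ≤ p := by exact_mod_cast hp.two_le
  have h6 : (1 - 1 / (p : ℝ))⁻¹ = (1 / p + 1 / ((p : ℝ) * (p - 1))) + 1 := by
    have h0 : (p : ℝ) ≠ 0 := by linarith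
    have h1 : (p : ℝ) - 1 ≠ 0 := by
      have : (0 : ℝ) < p - 1 := by linarith
      exact this.ne'
    field_simp
    ring
  rw [h6]
  exact Real.add_one_le_exp _

theorem sum_tel (z : ℕ) : ∑ n ∈ Icc 2 z, 1 / ((n : ℝ) * (n - 1)) ≤ 1 := by
  have h : ∀ z : ℕ, 1 ≤ z → ∑ n ∈ Icc 2 z, 1 / ((n : ℝ) * (n - 1)) ≤ 1 - 1 / z := by
    intro z hz
    induction z, hz using Nat.le_induction with
    | base => simp
    | succ z hz ih =>
      rw [Finset.sum_Icc_succ_top (by omega)]
      have hz0 : (0 : ℝ) < z := by exact_mod_cast hz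
      push_cast
      have e : 1 / (((z : ℝ) + 1) * ((z : ℝ) + 1 - 1)) = 1 / z - 1 / ((z : ℝ) + 1) := by
        have e0 : (z : ℝ) + 1 - 1 = z := by ring
        rw [e0]
        field_simp
        norm_num
      rw [e]
      linarith
  rcases Nat.eq_zero_or_pos z with h0 | h0
  · subst h0
    simp
  · have := h z h0
    have h2 : 0 ≤ 1 / (z : ℝ) := by positivity
    linarith

/-- Mertens -/
theorem Vz_bounds : ∃ C : ℝ, 1 ≤ C ∧ ∀ z : ℕ, 3 ≤ z → (Vz z)⁻¹ ≤ C * Real.log z ∧ Vz z ≤ C / Real.log z := by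
  obtain ⟨C, hC⟩ := Pool.Agent.Helper256.KM.mertens_inv
  have hC0 : 0 ≤ C := (abs_nonneg _).trans (hC 3 le_rfl)
  refine ⟨Real.exp (C + 1), Real.one_le_exp (by linarith), fun z hz => ?_⟩
  have hz3 : (3 : ℝ) ≤ z := by exact_mod_cast hz
  have hlz : 1 ≤ Real.log z := by
    rw [← Real.log_exp 1]
    apply Real.log_le_log (Real.exp_pos _)
    have := Real.exp_one_lt_d9
    linarith
  have h4 := abs_le.1 (hC z hz)
  have h5 : ∑ p ∈ pz z, 1 / ((p : ℝ) * (p - 1)) ≤ 1 := by
    refine le_trans ?_ (sum_tel z)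
    apply sum_le_sum_of_subset_of_nonneg
    · intro p hp
      rw [mem_pz] at hp
      exact mem_Icc.2 ⟨hp.2.two_le, hp.1⟩
    · intro n hn _
      have h2 : (2 : ℝ) ≤ n := by exact_mod_cast (mem_Icc.1 hn).1
      apply div_nonneg zero_le_one
      nlinarith
  have h6 : ∑ p ∈ pz z, 1 / (p : ℝ) ≤ Real.log (Real.log z) + C := by
    unfold pz
    linarith [h4.2]
  have h6' : Real.log (Real.log z) - C ≤ ∑ p ∈ pz z, 1 / (p : ℝ) := by
    unfold pz
    linarith [h4.1]
  constructor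
  · calc (Vz z)⁻¹ ≤ ∏ p ∈ pz z, Real.exp (1 / p + 1 / ((p : ℝ) * (p - 1))) := by
          unfold Vz
          rw [← prod_inv_distrib]
          apply prod_le_prod
          · intro p hp
            exact (inv_pos.2 (one_sub_pos (mem_pz.1 hp).2)).le
          · intro p hp
            exact inv_one_sub_le' (mem_pz.1 hp).2
      _ = Real.exp (∑ p ∈ pz z, 1 / (p : ℝ) + ∑ p ∈ pz z, 1 / ((p : ℝ) * (p - 1))) := by
          rw [← Real.exp_sum, sum_add_distrib]
      _ ≤ Real.exp (Real.log (Real.log z) + (C + 1)) := Real.exp_le_exp.2 (by linarith)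
      _ = Real.exp (C + 1) * Real.log z := by
          rw [Real.exp_add, Real.exp_log (by linarith), mul_comm]
  · have h7 : Vz z ≤ Real.exp (-∑ p ∈ pz z, 1 / (p : ℝ)) := by
      unfold Vz
      rw [← sum_neg_distrib, Real.exp_sum]
      apply prod_le_prod
      · intro p hp
        exact (one_sub_pos (mem_pz.1 hp).2).le
      · intro p _
        have := Real.add_one_le_exp (-(1 / (p : ℝ)))
        linarith
    calc Vz z ≤ Real.exp (-∑ p ∈ pz z, 1 / (p : ℝ)) := h7
      _ ≤ Real.exp (C + 1 - Real.log (Real.log z)) := Real.exp_le_exp.2 (by linarith)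
      _ = _ := by rw [Real.exp_sub, Real.exp_log (by linarith)]

theorem Vz_two_pow : ∃ C : ℝ, 1 ≤ C ∧ ∀ s : ℕ, 2 ≤ s → (Vz (2 ^ s))⁻¹ ≤ C * s := by
  obtain ⟨C, hC1, hC⟩ := Vz_bounds
  refine ⟨C, hC1, fun s hs => ?_⟩
  have h3 : 3 ≤ 2 ^ s := by
    calc 3 ≤ 2 ^ 2 := by norm_num
      _ ≤ 2 ^ s := Nat.pow_le_pow_right (by norm_num) hs
  refine (hC _ h3).1.trans ?_
  apply mul_le_mul_of_nonneg_left _ (by linarith)
  push_cast
  rw [Real.log_pow]
  have h1 := Real.log_two_lt_d9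
  have h2 : (0 : ℝ) ≤ s := Nat.cast_nonneg _
  nlinarith

/-- the number of reduced residues modulo the product of the primes up to `w` -/
theorem primorial_tot (w : ℕ) : (Nat.totient (∏ p ∈ pz w, p) : ℝ) = (∏ p ∈ pz w, (p : ℝ)) * Vz w := by
  unfold Vz
  rw [← prod_mul_distrib]
  have h : ∀ s : Finset ℕ, (∀ p ∈ s, p.Prime) → (Nat.totient (∏ p ∈ s, p) : ℝ) = ∏ p ∈ s, ((p : ℝ) * (1 - 1 / (p : ℝ))) := by
    intro s
    induction s using Finset.induction_on with
    | empty => intro _; simp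
    | insert a s ha ih =>
      intro hs
      have hap := hs a (mem_insert_self _ _)
      have hsp : ∀ p ∈ s, p.Prime := fun p hp => hs p (mem_insert_of_mem hp)
      rw [prod_insert ha, prod_insert ha]
      have hco : Nat.Coprime a (∏ p ∈ s, p) := by
        apply Nat.Coprime.prod_right
        intro p hp
        rw [Nat.coprime_primes hap (hsp p hp)]
        rintro rfl
        exact ha hp
      rw [Nat.totient_mul hco]
      push_cast
      rw [ih hsp, Nat.totient_prime hap]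
      have hap0 : (a : ℝ) ≠ 0 := by exact_mod_cast hap.ne_zero
      rw [Nat.cast_sub hap.one_le]
      congr 1
      field_simp
      norm_num
  exact h _ fun p hp => (mem_pz.1 hp).2

/-- for every `D` there is a modulus with fewer than `P / D` reduced classes -/
theorem thin (D : ℕ) (hD : 1 ≤ D) : ∃ P : ℕ, 1 ≤ P ∧ (∀ p, p.Prime → p ∣ P → p ≤ P) ∧ Nat.totient P < P / D := by
  obtain ⟨C, hC1, hC⟩ := Vz_bounds
  -- choose `w` with `C / log w ≤ 1 / (4 D)` and product at least `4 D`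
  obtain ⟨w, hw⟩ := exists_nat_gt (Real.exp (4 * C * D))
  set w' := max w (4 * D + 3) with hw'
  have hw3 : 3 ≤ w' := by omega
  have hwr : Real.exp (4 * C * D) ≤ (w' : ℝ) := by
    have : (w : ℝ) ≤ (w' : ℝ) := by exact_mod_cast le_max_left _ _
    linarith
  have hlog : 4 * C * D ≤ Real.log w' := by
    have := Real.log_le_log (Real.exp_pos _) hwr
    rwa [Real.log_exp] at this
  have hD0 : (1 : ℝ) ≤ D := by exact_mod_cast hD
  have hV : Vz w' ≤ 1 / (4 * D) := by
    refine (hC w' hw3).2.trans ?_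
    rw [div_le_div_iff₀ (by nlinarith) (by linarith)]
    nlinarith
  set P := ∏ p ∈ pz w', p with hP
  have hP1 : 1 ≤ P := Nat.pos_of_ne_zero (prod_ne_zero_iff.2 fun p hp => (mem_pz.1 hp).2.ne_zero)
  have hP0 : (0 : ℝ) < P := by exact_mod_cast hP1
  have htot := primorial_tot w'
  rw [← hP] at htot
  have hcast : (∏ p ∈ pz w', (p : ℝ)) = (P : ℝ) := by rw [hP]; push_cast; rfl
  rw [hcast] at htot
  have hle : (Nat.totient P : ℝ) ≤ P / (4 * D) := by
    rw [htot]
    calc (P : ℝ) * Vz w' ≤ P * (1 / (4 * D)) := mul_le_mul_of_nonneg_left hV hP0.le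
      _ = _ := by ring
  have h1 : 1 ≤ Nat.totient P := Nat.totient_pos.2 hP1
  refine ⟨P, hP1, fun p hp hd => Nat.le_of_dvd hP1 hd, ?_⟩
  -- `4 D totient ≤ P`
  have h2 : 4 * D * Nat.totient P ≤ P := by
    rw [le_div_iff₀ (by linarith)] at hle
    have : ((4 * D * Nat.totient P : ℕ) : ℝ) ≤ (P : ℝ) := by
      push_cast
      linarith
    exact_mod_cast this
  rw [Nat.lt_iff_add_one_le, Nat.le_div_iff_mul_le (by omega)]
  calc (Nat.totient P + 1) * D ≤ (4 * Nat.totient P) * D := Nat.mul_le_mul_right _ (by omega)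
    _ = 4 * D * Nat.totient P := by ring
    _ ≤ P := h2

end Pool.Agent.K4H14.IP
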