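import Pool.Agent.K4H14.IP.Cnt
import Pool.Agent.K4H14.IP.Abel

/-!
The model: rough numbers with weights, summed over a progression.
-/

set_option autoImplicit false

namespace Pool.Agent.K4H14.IP

open Finset
open Pool.Agent.H373R2.T7 (pz mem_pz Vz PerB nuB)

/-- the level -/
def zz (j : ℕ) : ℕ := 2 ^ Nat.sqrt j

/-- the inverse density -/
noncomputable def WW (j : ℕ) : ℝ := (Vz (zz j))⁻¹

theorem WW_pos (j : ℕ) : 0 < WW j := inv_pos.2 (Vz_pos' _)

theorem WW_ge (j : ℕ) : 1 ≤ WW j := (one_le_inv₀ (Vz_pos' _)).2 (Vz_le_one _)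

/-- the weight of a term -/
noncomputable def hw (G : Finset ℕ) (W : ℝ) (n : ℕ) : ℝ := ∏ g ∈ G, (W / Real.log ((n + g : ℕ) : ℝ))

theorem hw_nonneg (G : Finset ℕ) (W : ℝ) (hW : 0 ≤ W) (n : ℕ) : 0 ≤ hw G W n :=
  prod_nonneg fun _ _ => div_nonneg hW (Real.log_natCast_nonneg _)

theorem hw_anti (G : Finset ℕ) (W : ℝ) (hW : 0 ≤ W) (n m : ℕ) (hn : 3 ≤ n) (hnm : n ≤ m) : hw G W m ≤ hw G W n := by
  unfold hw
  apply prod_le_prod
  · intro g _
    exact div_nonneg hW (Real.log_natCast_nonneg _)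
  · intro g _
    have h1 := log_ge_one (show 3 ≤ n + g by omega)
    apply div_le_div_of_nonneg_left hW (by linarith)
    apply Real.log_le_log
    · exact_mod_cast (by omega : 0 < n + g)
    · exact_mod_cast (by omega : n + g ≤ m + g)

theorem hw_le_one (G : Finset ℕ) (W : ℝ) (hW : 0 ≤ W) (n j : ℕ) (hn : 2 ^ j ≤ n) (hj : W ≤ j * Real.log 2) (h3 : 3 ≤ n) :
    hw G W n ≤ 1 := by
  unfold hw
  apply prod_le_one
  · intro g _
    exact div_nonneg hW (Real.log_natCast_nonneg _)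
  · intro g _
    have h1 := log_ge_one (show 3 ≤ n + g by omega)
    rw [div_le_one (by linarith)]
    refine hj.trans ?_
    rw [← Real.log_pow]
    apply Real.log_le_log (by positivity)
    exact_mod_cast (by omega : 2 ^ j ≤ n + g)

theorem hw_eq (G : Finset ℕ) (W : ℝ) (n : ℕ) :
    hw G W n = W ^ G.card * ∏ g ∈ G, 1 / Real.log ((n + g : ℕ) : ℝ) := by
  unfold hw
  rw [← prod_const, ← prod_mul_distrib]
  exact prod_congr rfl fun g _ => by rw [mul_one_div]

/-- the parameters -/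
theorem params (K C0 : ℕ) (hK : 1 ≤ K) (hC0 : 1 ≤ C0) (j M : ℕ) (hM : 2 ^ j ≤ M ^ K) (b : ℕ)
    (hb : b = Nat.sqrt j / (16 * C0 * K)) :
    2 ^ (j / K) ≤ M ∧ (zz j) ^ (16 * (C0 * b)) ≤ 2 ^ (j / K) := by
  constructor
  · by_contra hcon
    push Not at hcon
    have h1 : M ^ K < (2 ^ (j / K)) ^ K := Nat.pow_lt_pow_left hcon (by omega)
    rw [← pow_mul] at h1
    have h2 : 2 ^ (j / K * K) ≤ 2 ^ j := Nat.pow_le_pow_right (by norm_num) (Nat.div_mul_le_self j K)
    omega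
  · unfold zz
    rw [← pow_mul]
    apply Nat.pow_le_pow_right (by norm_num)
    rw [Nat.le_div_iff_mul_le (by omega)]
    have h1 : b * (16 * C0 * K) ≤ Nat.sqrt j := by
      rw [hb]
      exact Nat.div_mul_le_self _ _
    calc Nat.sqrt j * (16 * (C0 * b)) * K = Nat.sqrt j * (b * (16 * C0 * K)) := by ring
      _ ≤ Nat.sqrt j * Nat.sqrt j := Nat.mul_le_mul_left _ h1
      _ ≤ j := Nat.sqrt_le j

/-- `2^(-s)`-type bounds -/
theorem half_pow (s N : ℕ) (hN : 1 ≤ N) (b : ℕ) (hb : b = s / N) :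
    (1 / 2 : ℝ) ^ b ≤ 2 * Real.exp (-(Real.log 2 / N) * s) := by
  have hl := Real.log_two_gt_d9
  have hN0 : (0 : ℝ) < N := by exact_mod_cast hN
  have h1 : (s : ℝ) / N ≤ b + 1 := by
    rw [div_le_iff₀ hN0]
    have h2 : s < (b + 1) * N := by
      rw [hb]
      have h3 := Nat.div_add_mod s N
      have h4 := Nat.mod_lt s (show 0 < N by omega)
      calc s = N * (s / N) + s % N := h3.symm
        _ < N * (s / N) + N := by omega
        _ = (s / N + 1) * N := by ring
    exact_mod_cast h2.le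
  have h2 : (1 / 2 : ℝ) ^ b = Real.exp (-(Real.log 2) * b) := by
    rw [one_div, inv_pow, neg_mul, Real.exp_neg, mul_comm, Real.exp_nat_mul, Real.exp_log (by norm_num)]
  have h3 : (2 : ℝ) * Real.exp (-(Real.log 2 / N) * s) = Real.exp (Real.log 2 + -(Real.log 2 / N) * s) := by
    rw [Real.exp_add, Real.exp_log (by norm_num)]
  rw [h2, h3]
  apply Real.exp_le_exp.2
  have h4 : Real.log 2 * ((s : ℝ) / N) ≤ Real.log 2 * (b + 1) := mul_le_mul_of_nonneg_left h1 (by linarith)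
  have h5 : Real.log 2 * ((s : ℝ) / N) = Real.log 2 / N * s := by ring
  linarith

/-- the square root bound -/
theorem sqrt_small (K : ℕ) (hK : 1 ≤ K) (j M : ℕ) (hM : 2 ^ (j / K) ≤ M) :
    √(M : ℝ) ≤ M * (2 * Real.exp (-(Real.log 2 / (2 * K : ℕ)) * Nat.sqrt j)) := by
  have h1 := half_pow (Nat.sqrt j) (2 * K) (by omega) (Nat.sqrt j / (2 * K)) rfl
  have hM1 : 1 ≤ M := le_trans Nat.one_le_two_pow hM
  have hM0 : (0 : ℝ) < M := by exact_mod_cast hM1
  refine le_trans ?_ (mul_le_mul_of_nonneg_left h1 hM0.le)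
  -- `√M ≤ M (1/2)^b` where `2 b ≤ j / K`
  have h2 : 2 * (Nat.sqrt j / (2 * K)) ≤ j / K := by
    rw [Nat.le_div_iff_mul_le (by omega)]
    calc 2 * (Nat.sqrt j / (2 * K)) * K = Nat.sqrt j / (2 * K) * (2 * K) := by ring
      _ ≤ Nat.sqrt j := Nat.div_mul_le_self _ _
      _ ≤ j := Nat.sqrt_le_self j
  set b := Nat.sqrt j / (2 * K) with hb
  have h3 : (2 : ℝ) ^ (2 * b) ≤ M := by
    have : 2 ^ (2 * b) ≤ M := le_trans (Nat.pow_le_pow_right (by norm_num) h2) hM
    exact_mod_cast this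
  have h4 : (2 : ℝ) ^ b ≤ √(M : ℝ) := by
    apply Real.le_sqrt_of_sq_le
    rw [← pow_mul, mul_comm]
    exact h3
  have h5 : √(M : ℝ) * √(M : ℝ) = M := Real.mul_self_sqrt hM0.le
  have h6 : (0 : ℝ) < 2 ^ b := by positivity
  rw [one_div, inv_pow, ← div_eq_mul_inv, le_div_iff₀ h6]
  calc √(M : ℝ) * 2 ^ b ≤ √(M : ℝ) * √(M : ℝ) := mul_le_mul_of_nonneg_left h4 (Real.sqrt_nonneg _)
    _ = M := h5

open Classical in
/-- the exact part: no asymptotics -/
theorem model_core (G : Finset ℕ) (W : ℝ) (z j u q M : ℕ) (E δ : ℝ) (hWz : W = (Vz z)⁻¹)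
    (hW : W ≤ j * Real.log 2) (hj : 2 ≤ j) (hu : 2 ^ j ≤ u)
    (hE : ∀ t ≤ M, |((((range t).filter (fun i => Free z G (u + q * i))).card : ℕ) : ℝ) - t * al G u q z| ≤ E)
    (hδ1 : 0 ≤ δ) (hδ : |∏ p ∈ pz z, fac G q p - sing G q| ≤ (∏ p ∈ pz z, fac G q p) * δ) :
    |∑ i ∈ (range M).filter (fun i => Free z G (u + q * i)), hw G W (u + q * i) -
      sing G q * ∑ i ∈ range M, 1 / Real.log ((u + q * i : ℕ) : ℝ) ^ G.card| ≤
      E + W ^ G.card * (M * ((∑ g ∈ G, (g : ℝ)) / 2 ^ j)) + W ^ G.card * δ * M := by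
  have hW1 : 0 < W := by rw [hWz]; exact inv_pos.2 (Vz_pos' _)
  have hu3 : 3 ≤ u := by
    calc 3 ≤ 2 ^ 2 := by norm_num
      _ ≤ 2 ^ j := Nat.pow_le_pow_right (by norm_num) hj
      _ ≤ u := hu
  set α := al G u q z with hα
  have hal := al_bounds G u q z
  rw [← hα] at hal
  set h : ℕ → ℝ := fun i => hw G W (u + q * i) with hh
  set Pz := ∏ p ∈ pz z, fac G q p with hPz
  have hPW : Pz = W ^ G.card * α := by
    rw [hPz, ← prod_Qp G u q z, hWz]
    rfl
  have hPz0 : 0 ≤ Pz := prod_nonneg fun p hp => fac_nonneg G q p (mem_pz.1 hp).2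
  have hWk : 0 < W ^ G.card := by positivity
  have hPzW : Pz ≤ W ^ G.card := by
    rw [hPW]
    calc W ^ G.card * α ≤ W ^ G.card * 1 := mul_le_mul_of_nonneg_left hal.2 hWk.le
      _ = _ := mul_one _
  have hE0 : 0 ≤ E := (abs_nonneg _).trans (hE 0 (Nat.zero_le _))
  -- first
  have s1 : |∑ i ∈ (range M).filter (fun i => Free z G (u + q * i)), h i - α * ∑ i ∈ range M, h i| ≤ E := by
    have h1 := abel_ineq (fun i => (if Free z G (u + q * i) then (1 : ℝ) else 0) - α) h M E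
      (fun i => hw_anti G W hW1.le _ _ (by omega) (by nlinarith)) (fun i => hw_nonneg G W hW1.le _) (by
        intro t ht
        have h2 := hE t ht
        rw [sum_sub_distrib, sum_const, card_range, nsmul_eq_mul, ← sum_filter, sum_const, nsmul_eq_mul, mul_one]
        exact h2)
    have h2 : ∑ i ∈ range M, ((if Free z G (u + q * i) then (1 : ℝ) else 0) - α) * h i =
        ∑ i ∈ (range M).filter (fun i => Free z G (u + q * i)), h i - α * ∑ i ∈ range M, h i := by
      rw [sum_filter, mul_sum, ← sum_sub_distrib]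
      apply sum_congr rfl
      intro i _
      split_ifs <;> ring
    rw [h2] at h1
    refine h1.trans ?_
    have h3 : h 0 ≤ 1 := hw_le_one G W hW1.le _ j (by omega) hW (by omega)
    calc E * h 0 ≤ E * 1 := mul_le_mul_of_nonneg_left h3 hE0
      _ = E := mul_one _
  -- second
  set L : ℝ := ∑ i ∈ range M, 1 / Real.log ((u + q * i : ℕ) : ℝ) ^ G.card with hL
  have hnlog : ∀ i, 1 ≤ Real.log ((u + q * i : ℕ) : ℝ) := fun i => log_ge_one (by nlinarith)
  have hL0 : 0 ≤ L := sum_nonneg fun i _ => by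
    have := hnlog i
    positivity
  have hLM : L ≤ M := by
    rw [hL]
    calc ∑ i ∈ range M, 1 / Real.log ((u + q * i : ℕ) : ℝ) ^ G.card ≤ ∑ _i ∈ range M, (1 : ℝ) := by
          apply sum_le_sum
          intro i _
          have := hnlog i
          rw [div_le_one (by positivity)]
          exact one_le_pow₀ this
      _ = M := by rw [sum_const, card_range, nsmul_eq_mul, mul_one]
  have s2 : |α * ∑ i ∈ range M, h i - Pz * L| ≤ W ^ G.card * (M * ((∑ g ∈ G, (g : ℝ)) / 2 ^ j)) := by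
    have h1 : α * ∑ i ∈ range M, h i - Pz * L =
        Pz * ∑ i ∈ range M, (∏ g ∈ G, 1 / Real.log ((u + q * i + g : ℕ) : ℝ) - 1 / Real.log ((u + q * i : ℕ) : ℝ) ^ G.card) := by
      have h3 : ∑ i ∈ range M, h i = W ^ G.card * ∑ i ∈ range M, ∏ g ∈ G, 1 / Real.log ((u + q * i + g : ℕ) : ℝ) := by
        rw [mul_sum]
        exact sum_congr rfl fun i _ => hw_eq G W _
      rw [sum_sub_distrib, mul_sub, hPW, h3, ← hL]
      ring
    rw [h1, abs_mul, abs_of_nonneg hPz0]
    have h2 : |∑ i ∈ range M, (∏ g ∈ G, 1 / Real.log ((u + q * i + g : ℕ) : ℝ) -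
        1 / Real.log ((u + q * i : ℕ) : ℝ) ^ G.card)| ≤ M * ((∑ g ∈ G, (g : ℝ)) / 2 ^ j) := by
      refine (abs_sum_le_sum_abs _ _).trans ?_
      calc _ ≤ ∑ _i ∈ range M, (∑ g ∈ G, (g : ℝ)) / 2 ^ j := by
            apply sum_le_sum
            intro i _
            refine (prod_log G (u + q * i) (by nlinarith)).trans ?_
            apply div_le_div_of_nonneg_left (sum_nonneg fun _ _ => Nat.cast_nonneg _) (by positivity)
            have : 2 ^ j ≤ u + q * i := by nlinarith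
            exact_mod_cast this
        _ = _ := by rw [sum_const, card_range, nsmul_eq_mul]
    calc Pz * _ ≤ Pz * (M * ((∑ g ∈ G, (g : ℝ)) / 2 ^ j)) := mul_le_mul_of_nonneg_left h2 hPz0
      _ ≤ _ := mul_le_mul_of_nonneg_right hPzW (by positivity)
  -- third
  have hδ0 : 0 ≤ Pz * δ := (abs_nonneg _).trans hδ
  have s3 : |Pz * L - sing G q * L| ≤ W ^ G.card * δ * M := by
    rw [← sub_mul, abs_mul, abs_of_nonneg hL0]
    calc |Pz - sing G q| * L ≤ (Pz * δ) * M := mul_le_mul hδ hLM hL0 hδ0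
      _ ≤ W ^ G.card * δ * M := by
          apply mul_le_mul_of_nonneg_right _ (Nat.cast_nonneg _)
          exact mul_le_mul_of_nonneg_right hPzW hδ1
  have hfin : ∑ i ∈ (range M).filter (fun i => Free z G (u + q * i)), h i - sing G q * L =
      (∑ i ∈ (range M).filter (fun i => Free z G (u + q * i)), h i - α * ∑ i ∈ range M, h i) +
      (α * ∑ i ∈ range M, h i - Pz * L) + (Pz * L - sing G q * L) := by ring
  rw [hfin]
  have t1 := abs_add_le (∑ i ∈ (range M).filter (fun i => Free z G (u + q * i)), h i - α * ∑ i ∈ range M, h i +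
      (α * ∑ i ∈ range M, h i - Pz * L)) (Pz * L - sing G q * L)
  have t2 := abs_add_le (∑ i ∈ (range M).filter (fun i => Free z G (u + q * i)), h i - α * ∑ i ∈ range M, h i)
      (α * ∑ i ∈ range M, h i - Pz * L)
  linarith

end Pool.Agent.K4H14.IP
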