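import Pool.Agent.K4H14.IP.Model

/-!
The model: the asymptotic estimate.
-/

set_option autoImplicit false

namespace Pool.Agent.K4H14.IP

open Finset
open Pool.Agent.H373R2.T7 (pz mem_pz Vz PerB nuB)

theorem WW_le : ∃ C : ℝ, 1 ≤ C ∧ ∀ j : ℕ, 2 ≤ Nat.sqrt j → WW j ≤ C * Nat.sqrt j := by
  obtain ⟨C, hC1, hC⟩ := Vz_two_pow
  exact ⟨C, hC1, fun j hj => hC _ hj⟩

/-- `W ≤ j log 2` for large `j` -/
theorem WW_le_log : ∃ s0 : ℕ, ∀ j : ℕ, s0 ≤ Nat.sqrt j → WW j ≤ j * Real.log 2 := by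
  obtain ⟨C, hC1, hC⟩ := WW_le
  obtain ⟨N, hN⟩ := exists_nat_gt (2 * C)
  refine ⟨max 2 N, fun j hj => (hC j (by omega)).trans ?_⟩
  have h1 : (N : ℝ) ≤ Nat.sqrt j := by exact_mod_cast (by omega : N ≤ Nat.sqrt j)
  have h2 : ((Nat.sqrt j * Nat.sqrt j : ℕ) : ℝ) ≤ j := by exact_mod_cast Nat.sqrt_le j
  push_cast at h2
  have hl := Real.log_two_gt_d9
  set s : ℝ := (Nat.sqrt j : ℝ) with hs
  have hs0 : 0 ≤ s := Nat.cast_nonneg _
  calc C * s ≤ (s / 2) * s := mul_le_mul_of_nonneg_right (by linarith) hs0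
    _ = (s * s) * (1 / 2) := by ring
    _ ≤ (j : ℝ) * Real.log 2 := mul_le_mul h2 (by linarith) (by norm_num) (Nat.cast_nonneg _)

/-- the error of the truncation at level `zz j`, when `q ≤ 2^(j+1)` -/
theorem del_small (k : ℕ) : ∃ s0 : ℕ, ∀ j q : ℕ, s0 ≤ Nat.sqrt j → 1 ≤ q → q < 2 ^ (j + 1) →
    0 ≤ Real.exp (4 * (k : ℝ) ^ 2 * ((1 + Nat.log 2 q) / (zz j : ℕ))) - 1 ∧
    Real.exp (4 * (k : ℝ) ^ 2 * ((1 + Nat.log 2 q) / (zz j : ℕ))) - 1 ≤
      8 * (k : ℝ) ^ 2 * ((Nat.sqrt j : ℝ) + 1) ^ 2 * Real.exp (-Real.log 2 * Nat.sqrt j) ∧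
    Real.exp (4 * (k : ℝ) ^ 2 * ((1 + Nat.log 2 q) / (zz j : ℕ))) - 1 ≤ 1 / 2 := by
  have hl := Real.log_two_gt_d9
  obtain ⟨s1, h1⟩ := poly_le (16 * (k : ℝ) ^ 2) 2 (Real.log 2) (by linarith)
  refine ⟨s1, fun j q hj hq hq2 => ?_⟩
  have h2 := h1 _ hj
  set s := Nat.sqrt j with hs
  have hexp : Real.exp (Real.log 2 * s) = 2 ^ s := by
    rw [mul_comm, Real.exp_nat_mul, Real.exp_log (by norm_num)]
  have hexp' : Real.exp (-Real.log 2 * s) = 1 / 2 ^ s := by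
    rw [neg_mul, Real.exp_neg, hexp, one_div]
  have hz : ((zz j : ℕ) : ℝ) = 2 ^ s := by unfold zz; push_cast; rfl
  rw [hexp] at h2
  rw [hz, hexp']
  have hlog : Nat.log 2 q ≤ j := by
    have := Nat.log_lt_of_lt_pow (by omega : q ≠ 0) hq2
    omega
  have hj2 : 1 + Nat.log 2 q ≤ (s + 1) ^ 2 := by
    have : j < (s + 1) * (s + 1) := Nat.lt_succ_sqrt j
    have h3 : (s + 1) ^ 2 = (s + 1) * (s + 1) := by ring
    omega
  have hj3 : (1 : ℝ) + Nat.log 2 q ≤ ((s : ℝ) + 1) ^ 2 := by exact_mod_cast hj2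
  have h2s : (0 : ℝ) < 2 ^ s := by positivity
  set δ := 4 * (k : ℝ) ^ 2 * ((1 + Nat.log 2 q) / 2 ^ s) with hδ
  have hδ0 : 0 ≤ δ := by positivity
  have hδ1 : δ ≤ 4 * (k : ℝ) ^ 2 * (((s : ℝ) + 1) ^ 2 / 2 ^ s) := by
    apply mul_le_mul_of_nonneg_left _ (by positivity)
    exact div_le_div_of_nonneg_right hj3 h2s.le
  have hδ2 : δ ≤ 1 / 4 := by
    refine hδ1.trans ?_
    rw [← mul_div_assoc, div_le_iff₀ h2s]
    linarith
  have h5 := Real.abs_exp_sub_one_le (x := δ) (by rw [abs_of_nonneg hδ0]; linarith)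
  rw [abs_of_nonneg hδ0, abs_of_nonneg (by linarith [Real.one_le_exp hδ0])] at h5
  refine ⟨by linarith [Real.one_le_exp hδ0], ?_, by linarith⟩
  calc Real.exp δ - 1 ≤ 2 * δ := h5
    _ ≤ 2 * (4 * (k : ℝ) ^ 2 * (((s : ℝ) + 1) ^ 2 / 2 ^ s)) := mul_le_mul_of_nonneg_left hδ1 (by norm_num)
    _ = _ := by ring

theorem sqrt_ge (s0 j : ℕ) (h : s0 * s0 ≤ j) : s0 ≤ Nat.sqrt j := Nat.le_sqrt.2 h

theorem q_small (u q M j : ℕ) (hM : 2 ≤ M) (hlt : ∀ i < M, u + q * i < 2 ^ (j + 1)) : q < 2 ^ (j + 1) := by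
  have := hlt 1 (by omega)
  omega

open Classical in
theorem model (G : Finset ℕ) (hG : G.Nonempty) (K : ℕ) (hK : 1 ≤ K) : ∃ c : ℝ, 0 < c ∧ ∃ j0 : ℕ,
    ∀ j, j0 ≤ j → ∀ u q M : ℕ, 1 ≤ q → 2 ^ j ≤ u → (∀ i < M, u + q * i < 2 ^ (j + 1)) → 2 ^ j ≤ M ^ K →
      (∀ g ∈ G, Nat.Coprime (u + g) q) →
    |∑ i ∈ (range M).filter (fun i => Free (zz j) G (u + q * i)), hw G (WW j) (u + q * i) -
      sing G q * ∑ i ∈ range M, 1 / Real.log ((u + q * i : ℕ) : ℝ) ^ G.card| ≤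
      M * Real.exp (-c * Nat.sqrt j) := by
  obtain ⟨C, hC1, hC⟩ := WW_le
  obtain ⟨s1, hs1⟩ := WW_le_log
  obtain ⟨C0, x0, hC0, hcnt⟩ := free_count G hG
  obtain ⟨z0, hz0⟩ := sing_trunc G
  obtain ⟨s2, hs2⟩ := del_small G.card
  set N := 16 * C0 * K with hN
  have hN1 : 1 ≤ N := by
    have : 1 ≤ C0 * K := Nat.mul_pos hC0 hK
    calc 1 ≤ 16 * (C0 * K) := by omega
      _ = N := by rw [hN]; ring
  have hN0 : (0 : ℝ) < N := by exact_mod_cast hN1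
  have hl := Real.log_two_gt_d9
  set κ : ℝ := Real.log 2 / N with hκ
  have hκ0 : 0 < κ := by rw [hκ]; positivity
  set k := G.card with hk
  set SG : ℝ := ∑ g ∈ G, (g : ℝ) with hSG
  have hSG0 : 0 ≤ SG := sum_nonneg fun _ _ => Nat.cast_nonneg _
  set A : ℝ := 6 + C ^ k * SG + 8 * (k : ℝ) ^ 2 * C ^ k with hA
  obtain ⟨s3, hs3⟩ := poly_le A (k + 2) (κ / 2) (by linarith)
  set sm := max (max (max 2 s1) (max x0 z0)) (max (max s2 s3) (max (N * C0) K)) with hsm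
  refine ⟨κ / 2, by linarith, sm * sm, fun j hj u q M hq hu hlt hMK hco => ?_⟩
  have hs := sqrt_ge sm j hj
  set s := Nat.sqrt j with hsd
  have hs2' : 2 ≤ s := by omega
  set b := s / N with hb
  have hbC : C0 ≤ b := by
    rw [hb, Nat.le_div_iff_mul_le (by omega), mul_comm]
    omega
  have hsj : s * s ≤ j := Nat.sqrt_le j
  have hsj' : s ≤ j := Nat.sqrt_le_self j
  obtain ⟨hM1, hzx⟩ := params K C0 hK hC0 j M hMK b rfl
  have hM2 : 2 ≤ M := by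
    have h1 : 1 ≤ j / K := by
      rw [Nat.le_div_iff_mul_le (by omega)]
      omega
    calc 2 = 2 ^ 1 := by norm_num
      _ ≤ 2 ^ (j / K) := Nat.pow_le_pow_right (by norm_num) h1
      _ ≤ M := hM1
  have hM0 : (0 : ℝ) < M := by exact_mod_cast (by omega : 0 < M)
  have hq2 := q_small u q M j hM2 hlt
  have hzz : s ≤ zz j := by
    unfold zz
    exact Nat.lt_two_pow_self.le
  -- the parameters of the core
  set x : ℕ := 2 ^ (j / K) with hx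
  set E : ℝ := (1 / 2) ^ b * M + √(x : ℝ) + 1 with hE
  set δ : ℝ := Real.exp (4 * (k : ℝ) ^ 2 * ((1 + Nat.log 2 q) / (zz j : ℕ))) - 1 with hδ
  obtain ⟨hδ0, hδ1, _⟩ := hs2 j q (by omega) hq hq2
  rw [← hδ] at hδ0 hδ1
  have core := model_core G (WW j) (zz j) j u q M E δ rfl (hs1 j (by omega)) (by omega) hu (by
      intro t ht
      have h1 := hcnt b hbC x (zz j) (by omega) hzx u q hco t
      refine h1.trans ?_
      have h2 : (1 / 2 : ℝ) ^ b * t ≤ (1 / 2) ^ b * M :=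
        mul_le_mul_of_nonneg_left (by exact_mod_cast ht) (by positivity)
      rw [hE]
      linarith) hδ0 (hz0 q (zz j) hq (by omega))
  refine core.trans ?_
  -- bounds
  have hexpκ : Real.exp (-(Real.log 2) * s) ≤ Real.exp (-κ * s) := by
    apply Real.exp_le_exp.2
    have h1 : κ ≤ Real.log 2 := by
      rw [hκ]
      apply div_le_self (by linarith)
      exact_mod_cast hN1
    have h2 : κ * (s : ℝ) ≤ Real.log 2 * s := mul_le_mul_of_nonneg_right h1 (Nat.cast_nonneg _)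
    linarith
  have hpows : Real.exp (-(Real.log 2) * s) = 1 / 2 ^ s := by
    rw [neg_mul, Real.exp_neg, mul_comm, Real.exp_nat_mul, Real.exp_log (by norm_num), one_div]
  have b1 : (1 / 2 : ℝ) ^ b ≤ 2 * Real.exp (-κ * s) := half_pow s N hN1 b rfl
  have b2 : √(M : ℝ) ≤ M * (2 * Real.exp (-κ * s)) := by
    refine (sqrt_small K hK j M hM1).trans ?_
    apply mul_le_mul_of_nonneg_left _ hM0.le
    apply mul_le_mul_of_nonneg_left _ (by norm_num)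
    apply Real.exp_le_exp.2
    have h1 : κ ≤ Real.log 2 / (2 * K : ℕ) := by
      rw [hκ]
      apply div_le_div_of_nonneg_left (by linarith) (by exact_mod_cast (by omega : 0 < 2 * K))
      have : 2 * K ≤ N := by
        calc 2 * K = 2 * 1 * K := by ring
          _ ≤ 16 * C0 * K := Nat.mul_le_mul_right _ (by omega)
      exact_mod_cast this
    have h2 : κ * (s : ℝ) ≤ Real.log 2 / (2 * K : ℕ) * s := mul_le_mul_of_nonneg_right h1 (Nat.cast_nonneg _)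
    linarith
  have b3 : √(x : ℝ) ≤ √(M : ℝ) := Real.sqrt_le_sqrt (by exact_mod_cast hM1)
  have b4 : 1 ≤ √(M : ℝ) := by
    rw [Real.one_le_sqrt]
    exact_mod_cast (by omega : 1 ≤ M)
  set e := Real.exp (-κ * s) with he
  have he0 : 0 < e := Real.exp_pos _
  have hs0 : (0 : ℝ) ≤ s := Nat.cast_nonneg _
  have hEb : E ≤ M * e * 6 := by
    have h1 : (1 / 2 : ℝ) ^ b * M ≤ 2 * e * M := mul_le_mul_of_nonneg_right b1 hM0.le
    rw [hE]
    linarith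
  have hWk : WW j ^ k ≤ C ^ k * ((s : ℝ) + 1) ^ k := by
    rw [← mul_pow]
    apply pow_le_pow_left₀ (WW_pos j).le
    refine (hC j hs2').trans ?_
    apply mul_le_mul_of_nonneg_left _ (by linarith)
    linarith
  have hWk0 : 0 < WW j ^ k := pow_pos (WW_pos j) _
  have hCk0 : 0 < C ^ k := by positivity
  have hT3 : WW j ^ k * (M * (SG / 2 ^ j)) ≤ M * e * (C ^ k * SG * ((s : ℝ) + 1) ^ (k + 2)) := by
    have h1 : SG / 2 ^ j ≤ SG * e := by
      rw [div_eq_mul_one_div]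
      apply mul_le_mul_of_nonneg_left _ hSG0
      have h2 : (1 : ℝ) / 2 ^ j ≤ 1 / 2 ^ s :=
        one_div_le_one_div_of_le (by positivity) (pow_le_pow_right₀ (by norm_num) hsj')
      rw [← hpows] at h2
      exact h2.trans hexpκ
    have h3 : ((s : ℝ) + 1) ^ k ≤ ((s : ℝ) + 1) ^ (k + 2) :=
      pow_le_pow_right₀ (by linarith) (by omega)
    calc WW j ^ k * (M * (SG / 2 ^ j)) ≤ (C ^ k * ((s : ℝ) + 1) ^ (k + 2)) * (M * (SG * e)) := by
          apply mul_le_mul (hWk.trans (mul_le_mul_of_nonneg_left h3 hCk0.le)) _ (by positivity) (by positivity)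
          exact mul_le_mul_of_nonneg_left h1 hM0.le
      _ = _ := by ring
  have hT4 : WW j ^ k * δ * M ≤ M * e * (8 * (k : ℝ) ^ 2 * C ^ k * ((s : ℝ) + 1) ^ (k + 2)) := by
    have h1 : δ ≤ 8 * (k : ℝ) ^ 2 * ((s : ℝ) + 1) ^ 2 * e :=
      hδ1.trans (mul_le_mul_of_nonneg_left hexpκ (by positivity))
    calc WW j ^ k * δ * M ≤ (C ^ k * ((s : ℝ) + 1) ^ k) * (8 * (k : ℝ) ^ 2 * ((s : ℝ) + 1) ^ 2 * e) * M := by
          apply mul_le_mul_of_nonneg_right _ hM0.le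
          exact mul_le_mul hWk h1 hδ0 (by positivity)
      _ = _ := by ring
  have hE1 : M * e * 6 ≤ M * e * (6 * ((s : ℝ) + 1) ^ (k + 2)) := by
    apply mul_le_mul_of_nonneg_left _ (by positivity)
    have : (1 : ℝ) ≤ ((s : ℝ) + 1) ^ (k + 2) := one_le_pow₀ (by linarith)
    linarith
  have hp := hs3 s (by omega)
  have hfin : M * e * (A * ((s : ℝ) + 1) ^ (k + 2)) ≤ M * Real.exp (-(κ / 2) * s) := by
    have h1 : M * e * (A * ((s : ℝ) + 1) ^ (k + 2)) ≤ M * e * Real.exp (κ / 2 * s) :=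
      mul_le_mul_of_nonneg_left hp (by positivity)
    refine h1.trans (le_of_eq ?_)
    rw [mul_assoc, he, ← Real.exp_add]
    congr 2
    ring
  have hA2 : M * e * (A * ((s : ℝ) + 1) ^ (k + 2)) = M * e * (6 * ((s : ℝ) + 1) ^ (k + 2)) +
      M * e * (C ^ k * SG * ((s : ℝ) + 1) ^ (k + 2)) +
      M * e * (8 * (k : ℝ) ^ 2 * C ^ k * ((s : ℝ) + 1) ^ (k + 2)) := by
    rw [hA]
    ring
  linarith

/-- the singular series is at most `2 W^k` -/
theorem sing_le (G : Finset ℕ) : ∃ s0 : ℕ, ∀ j q : ℕ, s0 ≤ Nat.sqrt j → 1 ≤ q → q < 2 ^ (j + 1) →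
    |sing G q| ≤ 2 * WW j ^ G.card := by
  obtain ⟨z0, hz0⟩ := sing_trunc G
  obtain ⟨s2, hs2⟩ := del_small G.card
  refine ⟨max z0 s2, fun j q hj hq hq2 => ?_⟩
  have hzz : Nat.sqrt j ≤ zz j := by
    unfold zz
    exact Nat.lt_two_pow_self.le
  have h1 := hz0 q (zz j) hq (by omega)
  obtain ⟨hδ0, _, hδ1⟩ := hs2 j q (by omega) hq hq2
  set δ : ℝ := Real.exp (4 * (G.card : ℝ) ^ 2 * ((1 + Nat.log 2 q) / (zz j : ℕ))) - 1 with hδ
  set Pz := ∏ p ∈ pz (zz j), fac G q p with hPz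
  have hPz0 : 0 ≤ Pz := prod_nonneg fun p hp => fac_nonneg G q p (mem_pz.1 hp).2
  have hWk0 : 0 < WW j ^ G.card := pow_pos (WW_pos j) _
  have hPzW : Pz ≤ WW j ^ G.card := by
    rw [hPz, ← prod_Qp G 0 q (zz j)]
    have hal := al_bounds G 0 q (zz j)
    unfold al at hal
    calc _ ≤ ((Vz (zz j))⁻¹) ^ G.card * 1 := mul_le_mul_of_nonneg_left hal.2 hWk0.le
      _ = _ := mul_one _
  have h2 : Pz * δ ≤ Pz * (1 / 2) := mul_le_mul_of_nonneg_left hδ1 hPz0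
  have h3 := abs_le.1 (h1.trans h2)
  rw [abs_le]
  constructor <;> linarith [h3.1, h3.2]

end Pool.Agent.K4H14.IP
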