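import Pool.Agent.K4H14.IP.Model2
import Pool.Agent.K4H14.IP.Block

/-!
The choice of the set in one dyadic block.
-/

set_option autoImplicit false

namespace Pool.Agent.K4H14.IP

open Finset
open Pool.Agent.H373R2.T7 (pz mem_pz Vz PerB nuB)

/-- the rough numbers of the block -/
def RR (j : ℕ) : Finset ℕ := (Ico (2 ^ j + j + 1) (2 ^ (j + 1))).filter (fun n => ∀ p ∈ pz (zz j), ¬ p ∣ n)

theorem mem_RR (j n : ℕ) : n ∈ RR j ↔ (2 ^ j + j + 1 ≤ n ∧ n < 2 ^ (j + 1)) ∧ ∀ p ∈ pz (zz j), ¬ p ∣ n := by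
  unfold RR
  rw [mem_filter, mem_Ico]

/-- a progression -/
def AP (u q M : ℕ) : Finset ℕ := (range M).image (fun i => u + q * i)

theorem AP_inj (u q : ℕ) (hq : 1 ≤ q) : Function.Injective (fun i : ℕ => u + q * i) := by
  intro a b h
  simp only at h
  have := Nat.add_left_cancel h
  exact Nat.eq_of_mul_eq_mul_left hq this

theorem RR_thin (j P D : ℕ) (hP : P ^ 4 ≤ j) (hP1 : 1 ≤ P) (hdiv : ∀ p, p.Prime → p ∣ P → p ≤ P)
    (htot : Nat.totient P < P / D) (a : ℕ) : ((RR j).filter (fun r => a ≤ r ∧ r < a + P)).card < P / D := by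
  refine lt_of_le_of_lt ?_ htot
  rw [← Nat.filter_coprime_Ico_eq_totient P a]
  apply card_le_card
  intro r hr
  rw [mem_filter, mem_RR] at hr
  rw [mem_filter, mem_Ico]
  refine ⟨hr.2, Nat.coprime_of_dvd fun p hp hpP hpr => ?_⟩
  apply hr.1.2 p (mem_pz.2 ⟨?_, hp⟩) hpr
  have h1 : P ≤ Nat.sqrt j := by
    rw [Nat.le_sqrt]
    calc P * P ≤ P * P * (P * P) := Nat.le_mul_of_pos_right _ (by positivity)
      _ = P ^ 4 := by ring
      _ ≤ j := hP
  have h2 : Nat.sqrt j ≤ zz j := by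
    unfold zz
    exact Nat.lt_two_pow_self.le
  exact (hdiv p hp hpP).trans (h1.trans h2)

/-- the product over a cluster -/
theorem prod_clus (j : ℕ) (P : ℕ) (W : ℝ) (hW : 0 ≤ W) (hj : 1 ≤ j) (hPW : (P : ℝ) * W ≤ j * (48 / 100))
    (s : Finset ℕ) (hs : ∀ n ∈ s, 2 ^ j ≤ n) (hc : s.card ≤ P) : ∏ n ∈ s, (1 + W / Real.log n) ≤ 2 := by
  have hl := Real.log_two_gt_d9
  have hj0 : (0 : ℝ) < j := by exact_mod_cast hj
  have h1 : ∀ n ∈ s, W / Real.log n ≤ W / (j * Real.log 2) := by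
    intro n hn
    apply div_le_div_of_nonneg_left hW (by positivity)
    rw [← Real.log_pow]
    apply Real.log_le_log (by positivity)
    exact_mod_cast hs n hn
  calc ∏ n ∈ s, (1 + W / Real.log n) ≤ ∏ _n ∈ s, Real.exp (W / (j * Real.log 2)) := by
        apply prod_le_prod
        · intro n hn
          have h2 : 0 ≤ W / Real.log n := div_nonneg hW (Real.log_natCast_nonneg _)
          linarith
        · intro n hn
          have := Real.add_one_le_exp (W / (j * Real.log 2))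
          linarith [h1 n hn]
    _ = Real.exp (s.card * (W / (j * Real.log 2))) := by rw [prod_const, Real.exp_nat_mul]
    _ ≤ Real.exp (P * (W / (j * Real.log 2))) := by
        apply Real.exp_le_exp.2
        apply mul_le_mul_of_nonneg_right _ (by positivity)
        exact_mod_cast hc
    _ ≤ Real.exp (Real.log 2) := by
        apply Real.exp_le_exp.2
        rw [← mul_div_assoc, div_le_iff₀ (by positivity)]
        refine hPW.trans ?_
        have h3 : (48 / 100 : ℝ) ≤ Real.log 2 * Real.log 2 := by nlinarith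
        calc (j : ℝ) * (48 / 100) ≤ j * (Real.log 2 * Real.log 2) := mul_le_mul_of_nonneg_left h3 hj0.le
          _ = _ := by ring
    _ = 2 := Real.exp_log (by norm_num)

theorem P_small : ∃ j0 : ℕ, ∀ j P : ℕ, j0 ≤ j → P ^ 4 ≤ j → (P : ℝ) * WW j ≤ j * (48 / 100) := by
  obtain ⟨C, hC1, hC⟩ := WW_le
  obtain ⟨N, hN⟩ := exists_nat_gt (20 * C ^ 4)
  refine ⟨max 4 N, fun j P hj hP => ?_⟩
  have hs2 : 2 ≤ Nat.sqrt j := by rw [Nat.le_sqrt]; omega
  have h1 := hC j hs2
  have hP0 : (0 : ℝ) ≤ P := Nat.cast_nonneg _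
  have hj0 : (0 : ℝ) ≤ j := Nat.cast_nonneg _
  have hP4 : (P : ℝ) ^ 4 ≤ j := by exact_mod_cast hP
  have hs : ((Nat.sqrt j : ℕ) : ℝ) ^ 2 ≤ j := by
    have := Nat.sqrt_le j
    rw [sq]
    exact_mod_cast this
  have hjN : 20 * C ^ 4 ≤ j := by
    have : (N : ℝ) ≤ j := by exact_mod_cast (by omega : N ≤ j)
    linarith
  refine (mul_le_mul_of_nonneg_left h1 hP0).trans ?_
  apply le_of_pow_le_pow_left₀ (by norm_num : (4 : ℕ) ≠ 0) (by positivity)
  have hs4 : ((Nat.sqrt j : ℕ) : ℝ) ^ 4 ≤ (j : ℝ) ^ 2 := by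
    calc ((Nat.sqrt j : ℕ) : ℝ) ^ 4 = (((Nat.sqrt j : ℕ) : ℝ) ^ 2) ^ 2 := by ring
      _ ≤ _ := pow_le_pow_left₀ (by positivity) hs 2
  calc ((P : ℝ) * (C * (Nat.sqrt j : ℕ))) ^ 4 = (P : ℝ) ^ 4 * C ^ 4 * ((Nat.sqrt j : ℕ) : ℝ) ^ 4 := by ring
    _ ≤ j * C ^ 4 * (j : ℝ) ^ 2 := by
        apply mul_le_mul _ hs4 (by positivity) (by positivity)
        exact mul_le_mul_of_nonneg_right hP4 (by positivity)
    _ = (C ^ 4) * (j : ℝ) ^ 3 := by ring
    _ ≤ (j / 20) * (j : ℝ) ^ 3 := mul_le_mul_of_nonneg_right (by linarith) (by positivity)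
    _ ≤ (j * (48 / 100)) ^ 4 := by
        have h3 : 0 ≤ (j : ℝ) ^ 4 := by positivity
        nlinarith

/-- closed under subsets and translations, contains the singletons -/
structure Fam (F : Finset ℕ → Prop) : Prop where
  one : F {0}
  sub : ∀ G H, F G → H ⊆ G → F H
  tr : ∀ G n, F G ↔ F (sh G n)

open Classical in
theorem sel_block (F : Finset ℕ → Prop) (hF : Fam F) : ∃ j0 : ℕ, ∀ j, j0 ≤ j → ∀ D P : ℕ, 1 ≤ D → D ≤ j →
    1 ≤ P → P ^ 4 ≤ j → (∀ p, p.Prime → p ∣ P → p ≤ P) → Nat.totient P < P / D →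
    ∃ A ⊆ RR j, (∀ G : Finset ℕ, G.Nonempty → G ⊆ range (D + 1) → ¬ F G → ∀ n, ¬ sh G n ⊆ A) ∧
      ∀ G : Finset ℕ, G.Nonempty → F G → G ⊆ range (D + 1) → ∀ u q M : ℕ, u < 2 ^ (j + 1) → q < 2 ^ (j + 1) → 1 ≤ q →
        M ≤ 2 ^ (j + 1) →
        |((((range M).filter (fun i => sh G (u + q * i) ⊆ A)).card : ℕ) : ℝ) -
          ∑ i ∈ (range M).filter (fun i => sh G (u + q * i) ⊆ RR j), hw G (WW j) (u + q * i)| ≤
          j * √((M : ℝ) + 1) * (4 * j + 7) := by
  obtain ⟨j1, hj1⟩ := P_small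
  obtain ⟨s1, hs1⟩ := WW_le_log
  refine ⟨max (max 2 j1) (s1 * s1), fun j hj D P hD hDj hP1 hP4 hdiv htot => ?_⟩
  have hj2 : 2 ≤ j := by omega
  have hs := sqrt_ge s1 j (by omega)
  have hPW := hj1 j P (by omega) hP4
  have hW1 := hs1 j hs
  have hW0 := WW_pos j
  have hR2 : ∀ n ∈ RR j, 2 ^ j ≤ n := by
    intro n hn
    have := (mem_RR j n).1 hn
    omega
  have hlog : ∀ n ∈ RR j, WW j ≤ Real.log n := by
    intro n hn
    refine hW1.trans ?_
    rw [← Real.log_pow]
    apply Real.log_le_log (by positivity)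
    exact_mod_cast hR2 n hn
  -- the tests
  set I : Finset (Finset ℕ × ℕ × ℕ × ℕ) := ((range (D + 1)).powerset.filter (fun G => G.Nonempty ∧ F G)) ×ˢ
    (range (2 ^ (j + 1)) ×ˢ (range (2 ^ (j + 1)) ×ˢ range (2 ^ (j + 1) + 1))) with hI
  set T : Finset (Finset ℕ × Finset ℕ) := I.image (fun a => (a.1, AP a.2.1 a.2.2.1 a.2.2.2)) with hT
  have hTcard : T.card ≤ 2 ^ (4 * j + 5) := by
    refine card_image_le.trans ?_
    rw [hI, card_product, card_product, card_product, card_range, card_range]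
    have h1 : ((range (D + 1)).powerset.filter (fun G => G.Nonempty ∧ F G)).card ≤ 2 ^ (j + 1) := by
      refine (card_filter_le _ _).trans ?_
      rw [card_powerset, card_range]
      exact Nat.pow_le_pow_right (by norm_num) (by omega)
    have h2 : 2 ^ (j + 1) + 1 ≤ 2 ^ (j + 2) := by
      have : 1 ≤ 2 ^ (j + 1) := Nat.one_le_two_pow
      have h3 : 2 ^ (j + 2) = 2 * 2 ^ (j + 1) := by ring
      omega
    calc _ ≤ 2 ^ (j + 1) * (2 ^ (j + 1) * (2 ^ (j + 1) * 2 ^ (j + 2))) := by gcongr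
      _ = 2 ^ (4 * j + 5) := by
          rw [← pow_add, ← pow_add, ← pow_add]
          congr 1
          ring
  obtain ⟨A, hAR, hA1, hA2⟩ := block_exists (RR j) D P (2 ^ (j + 1)) hP1 (fun n hn => ((mem_RR j n).1 hn).1.2)
    (fun i => clus_card (RR j) D P hD (RR_thin j P D hP4 hP1 hdiv htot) i) F hF.sub hF.tr (hF.sub {0} ∅ hF.one (empty_subset _))
    (fun n => WW j / Real.log n) (fun n _ => div_nonneg hW0.le (Real.log_natCast_nonneg _))
    (fun n hn => (div_le_one (by linarith [hlog n hn])).2 (hlog n hn))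
    (fun i => prod_clus j P (WW j) hW0.le (by omega) hPW _ (fun n hn => hR2 n (clus_sub _ _ _ hn))
      (clus_card (RR j) D P hD (RR_thin j P D hP4 hP1 hdiv htot) i)) T (by
      intro t ht
      rw [hT, mem_image] at ht
      obtain ⟨a, ha, rfl⟩ := ht
      rw [hI, mem_product, mem_filter, mem_powerset] at ha
      exact ⟨ha.1.2.1, ha.1.2.2, ha.1.1⟩)
  refine ⟨A, hAR, hA1, fun G hG hFG hGD u q M hu hq hq1 hM => ?_⟩
  have hmem : (G, AP u q M) ∈ T := by
    rw [hT, mem_image]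
    refine ⟨(G, u, q, M), ?_, rfl⟩
    rw [hI, mem_product, mem_filter, mem_powerset, mem_product, mem_product, mem_range, mem_range, mem_range]
    exact ⟨⟨hGD, hG, hFG⟩, hu, hq, Nat.lt_succ_of_le hM⟩
  have h1 := hA2 (G, AP u q M) hmem
  simp only at h1
  have hinj := AP_inj u q hq1
  have e1 : ((AP u q M).filter (fun n => sh G n ⊆ A)).card = ((range M).filter (fun i => sh G (u + q * i) ⊆ A)).card := by
    unfold AP
    rw [filter_image, card_image_of_injective _ hinj]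
  have e2 : ∑ n ∈ (AP u q M).filter (fun n => sh G n ⊆ RR j), ∏ g ∈ G, WW j / Real.log ((g + n : ℕ) : ℝ) =
      ∑ i ∈ (range M).filter (fun i => sh G (u + q * i) ⊆ RR j), hw G (WW j) (u + q * i) := by
    unfold AP
    rw [filter_image, sum_image (fun a _ b _ hab => hinj hab)]
    apply sum_congr rfl
    intro i _
    unfold hw
    apply prod_congr rfl
    intro g _
    rw [add_comm g]
  have e3 : (AP u q M).card = M := by
    unfold AP
    rw [card_image_of_injective _ hinj, card_range]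
  rw [e1, e2, e3] at h1
  refine h1.trans ?_
  have hPj : (P : ℝ) ≤ j := by
    have : P ≤ j := by
      calc P = P * 1 := (mul_one _).symm
        _ ≤ P * P ^ 3 := Nat.mul_le_mul_left _ (Nat.one_le_pow _ _ hP1)
        _ = P ^ 4 := by ring
        _ ≤ j := hP4
    exact_mod_cast this
  have hTpos : 0 < T.card := card_pos.2 ⟨_, hmem⟩
  have hTlog : Real.log (2 * T.card) ≤ 4 * j + 6 := by
    have h2 : (2 : ℝ) * T.card ≤ 2 ^ (4 * j + 6) := by
      have : 2 * T.card ≤ 2 ^ (4 * j + 6) := by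
        calc 2 * T.card ≤ 2 * 2 ^ (4 * j + 5) := Nat.mul_le_mul_left _ hTcard
          _ = 2 ^ (4 * j + 6) := by rw [pow_succ]; ring
      exact_mod_cast this
    have h3 : (0 : ℝ) < 2 * T.card := by
      have : (0 : ℝ) < T.card := by exact_mod_cast hTpos
      linarith
    refine (Real.log_le_log h3 h2).trans ?_
    rw [Real.log_pow]
    have h4 := Real.log_two_lt_d9
    push_cast
    have h5 : (0 : ℝ) ≤ j := Nat.cast_nonneg _
    nlinarith
  have hTlog0 : 0 ≤ Real.log (2 * T.card) := by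
    apply Real.log_nonneg
    have : (1 : ℝ) ≤ T.card := by exact_mod_cast hTpos
    linarith
  apply mul_le_mul _ (by linarith) (by linarith) (by positivity)
  exact mul_le_mul_of_nonneg_right hPj (Real.sqrt_nonneg _)

end Pool.Agent.K4H14.IP
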