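import Pool.Agent.K4H14.IP.Sel

/-!
The estimate in one dyadic block.
-/

set_option autoImplicit false

namespace Pool.Agent.K4H14.IP

open Finset
open Pool.Agent.H373R2.T7 (pz mem_pz Vz PerB nuB)

/-- the depth `D j` tends to infinity slowly, with a thinning modulus for each block -/
theorem depth : ∃ D P : ℕ → ℕ, (∀ d, ∃ j0, ∀ j, j0 ≤ j → d ≤ D j) ∧ (∀ j, D j ≤ j) ∧
    ∃ j1, ∀ j, j1 ≤ j → 1 ≤ D j ∧ 1 ≤ P j ∧ P j ^ 4 ≤ j ∧ (∀ p, p.Prime → p ∣ P j → p ≤ P j) ∧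
      Nat.totient (P j) < P j / D j := by
  classical
  have h : ∀ d : ℕ, ∃ P : ℕ, 1 ≤ d → 1 ≤ P ∧ (∀ p, p.Prime → p ∣ P → p ≤ P) ∧ Nat.totient P < P / d := by
    intro d
    by_cases hd : 1 ≤ d
    · obtain ⟨P, hP⟩ := thin d hd
      exact ⟨P, fun _ => hP⟩
    · exact ⟨0, fun h => absurd h hd⟩
  choose Pf hPf using h
  set D : ℕ → ℕ := fun j => Nat.findGreatest (fun d => Pf d ^ 4 ≤ j) j with hD
  refine ⟨D, fun j => Pf (D j), ?_, fun j => Nat.findGreatest_le j, max 1 (Pf 1 ^ 4), ?_⟩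
  · intro d
    refine ⟨max d (Pf d ^ 4), fun j hj => ?_⟩
    exact Nat.le_findGreatest (P := fun d => Pf d ^ 4 ≤ j) (by omega) (by show Pf d ^ 4 ≤ j; omega)
  · intro j hj
    have h1 : 1 ≤ D j := Nat.le_findGreatest (P := fun d => Pf d ^ 4 ≤ j) (by omega) (by show Pf 1 ^ 4 ≤ j; omega)
    have h2 : Pf (D j) ^ 4 ≤ j :=
      Nat.findGreatest_spec (P := fun d => Pf d ^ 4 ≤ j) (m := 1) (by omega) (by show Pf 1 ^ 4 ≤ j; omega)
    obtain ⟨h3, h4, h5⟩ := hPf (D j) h1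
    exact ⟨h1, h3, h2, h4, h5⟩

open Classical in
/-- the boundary terms -/
theorem boundary (G : Finset ℕ) (j D u q M : ℕ) (hq : 1 ≤ q) (hu : 2 ^ j ≤ u) (hlt : ∀ i < M, u + q * i < 2 ^ (j + 1))
    (hGD : G ⊆ range (D + 1)) (W : ℝ) (hW : 0 ≤ W) (hWj : W ≤ j * Real.log 2) (hj : 2 ≤ j) :
    |∑ i ∈ (range M).filter (fun i => sh G (u + q * i) ⊆ RR j), hw G W (u + q * i) -
      ∑ i ∈ (range M).filter (fun i => Free (zz j) G (u + q * i)), hw G W (u + q * i)| ≤ j + 1 + D := by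
  have hsub : (range M).filter (fun i => sh G (u + q * i) ⊆ RR j) ⊆
      (range M).filter (fun i => Free (zz j) G (u + q * i)) := by
    intro i hi
    rw [mem_filter, sh_sub] at hi
    rw [mem_filter]
    refine ⟨hi.1, fun g hg p hp hd => ?_⟩
    have h1 := ((mem_RR j _).1 (hi.2 g hg)).2 p hp
    rw [add_comm] at h1
    exact h1 hd
  have h1 := sum_sdiff (f := fun i => hw G W (u + q * i)) hsub
  set S1 := (range M).filter (fun i => sh G (u + q * i) ⊆ RR j) with hS1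
  set S2 := (range M).filter (fun i => Free (zz j) G (u + q * i)) with hS2
  have h2 : |∑ i ∈ S1, hw G W (u + q * i) - ∑ i ∈ S2, hw G W (u + q * i)| = ∑ i ∈ S2 \ S1, hw G W (u + q * i) := by
    rw [← h1, abs_sub_comm, add_sub_cancel_right, abs_of_nonneg]
    exact sum_nonneg fun i _ => hw_nonneg G W hW _
  rw [h2]
  have hu3 : 3 ≤ u := by
    calc 3 ≤ 2 ^ 2 := by norm_num
      _ ≤ 2 ^ j := Nat.pow_le_pow_right (by norm_num) hj
      _ ≤ u := hu
  have h3 : ∑ i ∈ S2 \ S1, hw G W (u + q * i) ≤ ∑ _i ∈ S2 \ S1, (1 : ℝ) := by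
    apply sum_le_sum
    intro i _
    exact hw_le_one G W hW _ j (by nlinarith) hWj (by nlinarith)
  refine h3.trans ?_
  rw [sum_const, nsmul_eq_mul, mul_one]
  have h4 : (S2 \ S1).card ≤ j + 1 + D := by
    have h5 : (S2 \ S1).card ≤ (Ico (2 ^ j) (2 ^ j + j + 1) ∪ Ico (2 ^ (j + 1) - D) (2 ^ (j + 1))).card := by
      apply card_le_card_of_injOn (fun i => u + q * i)
      · intro i hi
        have hi' := mem_coe.1 hi
        rw [mem_sdiff, hS1, hS2, mem_filter, mem_filter, sh_sub] at hi'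
        obtain ⟨⟨hiM, hfree⟩, hno⟩ := hi'
        have hno' : ¬ ∀ g ∈ G, g + (u + q * i) ∈ RR j := fun h => hno ⟨hiM, h⟩
        push Not at hno'
        obtain ⟨g, hg, hgR⟩ := hno'
        have hgD := mem_range.1 (hGD hg)
        have hlt' := hlt i (mem_range.1 hiM)
        have hge : 2 ^ j ≤ u + q * i := by nlinarith
        have hgR2 : ¬ (2 ^ j + j + 1 ≤ g + (u + q * i) ∧ g + (u + q * i) < 2 ^ (j + 1)) := by
          intro h
          apply hgR
          rw [mem_RR]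
          refine ⟨h, fun p hp hd => ?_⟩
          apply hfree g hg p hp
          rw [add_comm]
          exact hd
        show u + q * i ∈ ((Ico (2 ^ j) (2 ^ j + j + 1) ∪ Ico (2 ^ (j + 1) - D) (2 ^ (j + 1)) : Finset ℕ) : Set ℕ)
        rw [mem_coe, mem_union, mem_Ico, mem_Ico]
        generalize u + q * i = n at *
        by_cases hcase : n < 2 ^ j + j + 1
        · exact Or.inl ⟨hge, hcase⟩
        · right
          have : ¬ g + n < 2 ^ (j + 1) := fun h => hgR2 ⟨by omega, h⟩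
          omega
      · intro a _ b _ hab
        exact AP_inj u q hq hab
    refine h5.trans ((card_union_le _ _).trans ?_)
    rw [Nat.card_Ico, Nat.card_Ico]
    omega
  exact_mod_cast h4

open Classical in
/-- the estimate in a block -/
theorem block_est (G : Finset ℕ) (hG : G.Nonempty) (K : ℕ) (hK : 1 ≤ K) : ∃ c : ℝ, 0 < c ∧ ∃ j0 : ℕ,
    ∀ j, j0 ≤ j → ∀ D : ℕ, D ≤ j → G ⊆ range (D + 1) → ∀ A : Finset ℕ,
      (∀ u q M : ℕ, u < 2 ^ (j + 1) → q < 2 ^ (j + 1) → 1 ≤ q → M ≤ 2 ^ (j + 1) →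
        |((((range M).filter (fun i => sh G (u + q * i) ⊆ A)).card : ℕ) : ℝ) -
          ∑ i ∈ (range M).filter (fun i => sh G (u + q * i) ⊆ RR j), hw G (WW j) (u + q * i)| ≤
          j * √((M : ℝ) + 1) * (4 * j + 7)) →
    ∀ u q M : ℕ, 1 ≤ q → 2 ^ j ≤ u → (∀ i < M, u + q * i < 2 ^ (j + 1)) → 2 ^ j ≤ M ^ K →
      (∀ g ∈ G, Nat.Coprime (u + g) q) →
    |((((range M).filter (fun i => sh G (u + q * i) ⊆ A)).card : ℕ) : ℝ) -
      sing G q * ∑ i ∈ range M, 1 / Real.log ((u + q * i : ℕ) : ℝ) ^ G.card| ≤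
      M * Real.exp (-c * Nat.sqrt j) := by
  obtain ⟨c, hc, j1, hmod⟩ := model G hG K hK
  obtain ⟨s1, hs1⟩ := WW_le_log
  have hl := Real.log_two_gt_d9
  set κ : ℝ := Real.log 2 / (2 * K : ℕ) with hκ
  have hκ0 : 0 < κ := by
    rw [hκ]
    have : (0 : ℝ) < (2 * K : ℕ) := by exact_mod_cast (by omega : 0 < 2 * K)
    positivity
  set c1 := min κ c with hc1
  have hc10 : 0 < c1 := lt_min hκ0 hc
  obtain ⟨s2, hs2⟩ := poly_le 51 4 (c1 / 2) (by linarith)
  set sm := max (max 2 K) (max s1 s2) with hsm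
  refine ⟨c1 / 2, by linarith, max j1 (sm * sm), fun j hj D hDj hGD A hA u q M hq hu hlt hMK hco => ?_⟩
  have hs := sqrt_ge sm j (by omega)
  set s := Nat.sqrt j with hsd
  have hsj' : s ≤ j := Nat.sqrt_le_self j
  have hM1 := (params K 1 hK le_rfl j M hMK _ rfl).1
  have hM2 : 2 ≤ M := by
    have h1 : 1 ≤ j / K := by
      rw [Nat.le_div_iff_mul_le (by omega)]
      omega
    calc 2 = 2 ^ 1 := by norm_num
      _ ≤ 2 ^ (j / K) := Nat.pow_le_pow_right (by norm_num) h1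
      _ ≤ M := hM1
  have hM0 : (0 : ℝ) < M := by exact_mod_cast (by omega : 0 < M)
  have hq2 := q_small u q M j hM2 hlt
  have hu2 : u < 2 ^ (j + 1) := by
    have := hlt 0 (by omega)
    omega
  have hMle : M ≤ 2 ^ (j + 1) := by
    have h1 := hlt (M - 1) (by omega)
    have h2 : M - 1 ≤ q * (M - 1) := Nat.le_mul_of_pos_left _ hq
    omega
  have e1 := hmod j (by omega) u q M hq hu hlt hMK hco
  have e2 := boundary G j D u q M hq hu hlt hGD (WW j) (WW_pos j).le (hs1 j (by omega)) (by omega)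
  have e3 := hA u q M hu2 hq2 hq hMle
  -- sizes
  have hsq : √((M : ℝ) + 1) ≤ 2 * √(M : ℝ) := by
    rw [show (2 : ℝ) * √(M : ℝ) = √(4 * M) by
      rw [Real.sqrt_mul (by norm_num), show (4 : ℝ) = 2 ^ 2 by norm_num, Real.sqrt_sq (by norm_num)]]
    apply Real.sqrt_le_sqrt
    have : (2 : ℝ) ≤ M := by exact_mod_cast hM2
    linarith
  have hsM := sqrt_small K hK j M hM1
  have hsM1 : 1 ≤ √(M : ℝ) := by
    rw [Real.one_le_sqrt]
    exact_mod_cast (by omega : 1 ≤ M)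
  have hj0 : (0 : ℝ) ≤ j := Nat.cast_nonneg _
  have hjs : (j : ℝ) ≤ ((s : ℝ) + 1) ^ 2 := by
    have : j < (s + 1) * (s + 1) := Nat.lt_succ_sqrt j
    have h2 : j ≤ (s + 1) ^ 2 := by
      rw [sq]
      omega
    exact_mod_cast h2
  have hD : (D : ℝ) ≤ j := by exact_mod_cast hDj
  have hs0 : (0 : ℝ) ≤ s := Nat.cast_nonneg _
  set t : ℝ := ((s : ℝ) + 1) ^ 2 with ht
  have ht1 : 1 ≤ t := one_le_pow₀ (by linarith)
  set e := Real.exp (-c1 * s) with he
  have he0 : 0 < e := Real.exp_pos _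
  have hκe : Real.exp (-κ * s) ≤ e := by
    apply Real.exp_le_exp.2
    have := mul_le_mul_of_nonneg_right (min_le_left κ c) hs0
    linarith
  have hce : Real.exp (-c * s) ≤ e := by
    apply Real.exp_le_exp.2
    have := mul_le_mul_of_nonneg_right (min_le_right κ c) hs0
    linarith
  have hroot : √(M : ℝ) ≤ M * (2 * e) :=
    hsM.trans (mul_le_mul_of_nonneg_left (mul_le_mul_of_nonneg_left hκe (by norm_num)) hM0.le)
  have f1 : (j : ℝ) * √((M : ℝ) + 1) * (4 * j + 7) + (j + 1 + D) ≤ 25 * t ^ 2 * √(M : ℝ) := by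
    have g1 : (j : ℝ) * √((M : ℝ) + 1) * (4 * j + 7) ≤ t * (2 * √(M : ℝ)) * (11 * t) := by
      apply mul_le_mul _ (by linarith) (by positivity) (by positivity)
      exact mul_le_mul hjs hsq (Real.sqrt_nonneg _) (by positivity)
    have g2 : (j : ℝ) + 1 + D ≤ 3 * t ^ 2 * √(M : ℝ) := by
      have g3 : t ≤ t ^ 2 := by nlinarith
      have g4 : 3 * t ^ 2 * 1 ≤ 3 * t ^ 2 * √(M : ℝ) := mul_le_mul_of_nonneg_left hsM1 (by positivity)
      linarith
    have g5 : t * (2 * √(M : ℝ)) * (11 * t) = 22 * t ^ 2 * √(M : ℝ) := by ring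
    linarith
  have f2 : 25 * t ^ 2 * √(M : ℝ) ≤ M * e * (50 * t ^ 2) := by
    have := mul_le_mul_of_nonneg_left hroot (show 0 ≤ 25 * t ^ 2 by positivity)
    refine this.trans (le_of_eq ?_)
    ring
  have f3 : (M : ℝ) * Real.exp (-c * s) ≤ M * e * t ^ 2 := by
    calc (M : ℝ) * Real.exp (-c * s) ≤ M * e := mul_le_mul_of_nonneg_left hce hM0.le
      _ = M * e * 1 := (mul_one _).symm
      _ ≤ M * e * t ^ 2 := mul_le_mul_of_nonneg_left (one_le_pow₀ ht1) (by positivity)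
  have f4 : M * e * (51 * t ^ 2) ≤ M * Real.exp (-(c1 / 2) * s) := by
    have h1 := hs2 s (by omega)
    have h2 : t ^ 2 = ((s : ℝ) + 1) ^ 4 := by rw [ht]; ring
    rw [h2]
    calc (M : ℝ) * e * (51 * ((s : ℝ) + 1) ^ 4) ≤ M * e * Real.exp (c1 / 2 * s) :=
          mul_le_mul_of_nonneg_left h1 (by positivity)
      _ = _ := by
          rw [mul_assoc, he, ← Real.exp_add]
          congr 2
          ring
  have g1 := abs_le.1 e1
  have g2 := abs_le.1 e2
  have g3 := abs_le.1 e3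
  rw [abs_le]
  constructor <;> linarith [g1.1, g1.2, g2.1, g2.2, g3.1, g3.2]

end Pool.Agent.K4H14.IP
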