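import Pool.Agent.K4H14.IP.Mert

/-!
The singular series of a pattern in a residue class, and its truncations.
-/

set_option autoImplicit false

namespace Pool.Agent.K4H14.IP

open Finset Filter Topology
open Pool.Agent.H373R2.T7 (pz mem_pz Vz)

/-- the number of residue classes modulo `p` met by `G` -/
def nu (G : Finset ℕ) (p : ℕ) : ℕ := (G.image (· % p)).card

/-- the local factor at `p` -/
noncomputable def fac (G : Finset ℕ) (q p : ℕ) : ℝ :=
  (if p ∣ q then 1 else 1 - (nu G p : ℝ) / p) / (1 - 1 / (p : ℝ)) ^ G.card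

/-- the singular series -/
noncomputable def sing (G : Finset ℕ) (q : ℕ) : ℝ := ∏' p : ℕ, if p.Prime then fac G q p else 1

theorem nu_le (G : Finset ℕ) (p : ℕ) : nu G p ≤ G.card := card_image_le

theorem nu_le' (G : Finset ℕ) (p : ℕ) (hp : 0 < p) : nu G p ≤ p := by
  unfold nu
  calc (G.image (· % p)).card ≤ (range p).card := by
        apply card_le_card
        intro r hr
        rw [mem_image] at hr
        obtain ⟨g, _, rfl⟩ := hr
        exact mem_range.2 (Nat.mod_lt _ hp)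
    _ = p := card_range p

theorem nu_eq (G : Finset ℕ) (p : ℕ) (h : ∀ g ∈ G, g < p) : nu G p = G.card := by
  unfold nu
  apply card_image_of_injOn
  intro a ha b hb hab
  simp only at hab
  rwa [Nat.mod_eq_of_lt (h a ha), Nat.mod_eq_of_lt (h b hb)] at hab

theorem fac_nonneg (G : Finset ℕ) (q p : ℕ) (hp : p.Prime) : 0 ≤ fac G q p := by
  unfold fac
  apply div_nonneg
  · split_ifs
    · exact zero_le_one
    · have hp0 : (0 : ℝ) < p := by exact_mod_cast hp.pos
      rw [sub_nonneg, div_le_one hp0]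
      exact_mod_cast nu_le' G p hp.pos
  · exact pow_nonneg (one_sub_pos hp).le _

theorem pow_upper (x : ℝ) (hx : 0 ≤ x) (hx1 : x ≤ 1) (k : ℕ) : (1 - x) ^ k ≤ 1 - k * x + (k : ℝ) ^ 2 * x ^ 2 := by
  induction k with
  | zero => simp
  | succ k ih =>
    have hk : (0 : ℝ) ≤ k := Nat.cast_nonneg _
    have h1 : (1 - x) ^ (k + 1) ≤ (1 - k * x + (k : ℝ) ^ 2 * x ^ 2) * (1 - x) := by
      rw [pow_succ]
      exact mul_le_mul_of_nonneg_right ih (by linarith)
    refine h1.trans ?_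
    push_cast
    have h2 : (1 - k * x + (k : ℝ) ^ 2 * x ^ 2) * (1 - x) =
        (1 - ((k : ℝ) + 1) * x + ((k : ℝ) + 1) ^ 2 * x ^ 2) - ((k + 1) * x ^ 2 + (k : ℝ) ^ 2 * x ^ 2 * x) := by ring
    rw [h2]
    have h3 : 0 ≤ ((k : ℝ) + 1) * x ^ 2 + (k : ℝ) ^ 2 * x ^ 2 * x := by positivity
    linarith

/-- the local factors are close to one -/
theorem fac_close (G : Finset ℕ) (q p : ℕ) (hp : p.Prime) (hG : ∀ g ∈ G, g < p) (hk : 2 * G.card ≤ p) :
    |fac G q p - 1| ≤ 4 * (G.card : ℝ) ^ 2 * (1 / (p : ℝ) ^ 2 + if p ∣ q then 1 / (p : ℝ) else 0) := by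
  set k := G.card with hkd
  have hp0 : (0 : ℝ) < p := by exact_mod_cast hp.pos
  set x : ℝ := 1 / p with hx
  have hx0 : 0 < x := by positivity
  have hp2 : (2 : ℝ) ≤ p := by exact_mod_cast hp.two_le
  have hxh : x ≤ 1 / 2 := one_div_le_one_div_of_le (by norm_num) hp2
  have hk0 : (0 : ℝ) ≤ k := Nat.cast_nonneg _
  have hkx : (k : ℝ) * x ≤ 1 / 2 := by
    rw [hx, mul_one_div, div_le_div_iff₀ hp0 (by norm_num)]
    have : ((2 * k : ℕ) : ℝ) ≤ p := by exact_mod_cast hk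
    push_cast at this
    linarith
  have hlow : 1 - k * x ≤ (1 - x) ^ k := by
    have := one_add_mul_le_pow (a := -x) (by linarith) k
    have e : 1 + -x = 1 - x := by ring
    rw [e] at this
    linarith
  have hD : 1 / 2 ≤ (1 - x) ^ k := by linarith
  have hD0 : 0 < (1 - x) ^ k := by linarith
  have hD1 : (1 - x) ^ k ≤ 1 := pow_le_one₀ (by linarith) (by linarith)
  have hup := pow_upper x hx0.le (by linarith) k
  have hxx : 1 / (p : ℝ) ^ 2 = x ^ 2 := by rw [hx]; ring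
  unfold fac
  rw [hxx, ← hkd]
  by_cases hd : p ∣ q
  · rw [if_pos hd, if_pos hd, ← hx]
    rcases Nat.eq_zero_or_pos k with h0 | h0
    · rw [h0]
      simp
    have hk1 : (1 : ℝ) ≤ k := by exact_mod_cast h0
    have h1 : 1 / (1 - x) ^ k - 1 = (1 - (1 - x) ^ k) / (1 - x) ^ k := by field_simp
    rw [h1, abs_of_nonneg (div_nonneg (by linarith) hD0.le), div_le_iff₀ hD0]
    have h2 : 1 - (1 - x) ^ k ≤ k * x := by linarith
    have h3 : 2 * (k * x) ≤ 4 * (k : ℝ) ^ 2 * (x ^ 2 + x) := by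
      have h31 : (k : ℝ) * x ≤ (k : ℝ) ^ 2 * x := by
        have : (k : ℝ) ≤ (k : ℝ) ^ 2 := by nlinarith
        exact mul_le_mul_of_nonneg_right this hx0.le
      have h32 : 0 ≤ (k : ℝ) ^ 2 * x ^ 2 := by positivity
      have h33 : 0 ≤ (k : ℝ) * x := by positivity
      nlinarith
    have h4 : 0 ≤ 4 * (k : ℝ) ^ 2 * (x ^ 2 + x) := by positivity
    calc 1 - (1 - x) ^ k ≤ k * x := h2
      _ = 2 * (k * x) * (1 / 2) := by ring
      _ ≤ 4 * (k : ℝ) ^ 2 * (x ^ 2 + x) * (1 / 2) := mul_le_mul_of_nonneg_right h3 (by norm_num)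
      _ ≤ 4 * (k : ℝ) ^ 2 * (x ^ 2 + x) * (1 - x) ^ k := mul_le_mul_of_nonneg_left hD h4
  · rw [if_neg hd, if_neg hd, nu_eq G p hG, ← hx, add_zero, ← hkd]
    have e : (k : ℝ) / p = k * x := by rw [hx]; ring
    rw [e]
    have h1 : (1 - k * x) / (1 - x) ^ k - 1 = -(((1 - x) ^ k - (1 - k * x)) / (1 - x) ^ k) := by
      field_simp
      ring
    rw [h1, abs_neg, abs_of_nonneg (div_nonneg (by linarith) hD0.le), div_le_iff₀ hD0]
    have h4 : 0 ≤ 4 * (k : ℝ) ^ 2 * x ^ 2 := by positivity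
    have h5 : 0 ≤ (k : ℝ) ^ 2 * x ^ 2 := by positivity
    calc (1 - x) ^ k - (1 - k * x) ≤ (k : ℝ) ^ 2 * x ^ 2 := by linarith
      _ ≤ 4 * (k : ℝ) ^ 2 * x ^ 2 * (1 / 2) := by linarith
      _ ≤ 4 * (k : ℝ) ^ 2 * x ^ 2 * (1 - x) ^ k := mul_le_mul_of_nonneg_left hD h4

theorem tail_sq (z Z : ℕ) (hz : 1 ≤ z) : ∑ p ∈ (Ioc z Z).filter Nat.Prime, 1 / (p : ℝ) ^ 2 ≤ 1 / (z : ℝ) := by
  have h1 : ∑ p ∈ (Ioc z Z).filter Nat.Prime, 1 / (p : ℝ) ^ 2 ≤ ∑ p ∈ Ioc z Z, 1 / (p : ℝ) ^ 2 :=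
    sum_le_sum_of_subset_of_nonneg (filter_subset _ _) (fun _ _ _ => by positivity)
  refine h1.trans ?_
  have h : ∀ Z : ℕ, z ≤ Z → ∑ p ∈ Ioc z Z, 1 / (p : ℝ) ^ 2 ≤ 1 / (z : ℝ) - 1 / (Z : ℝ) := by
    intro Z hZ
    induction Z, hZ using Nat.le_induction with
    | base => simp
    | succ Z hZ ih =>
      rw [Finset.sum_Ioc_succ_top (by omega)]
      have hz0 : (0 : ℝ) < Z := by exact_mod_cast (by omega : 0 < Z)
      push_cast
      have e : 1 / ((Z : ℝ) + 1) ^ 2 ≤ 1 / Z - 1 / ((Z : ℝ) + 1) := by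
        rw [div_sub_div _ _ hz0.ne' (by positivity), div_le_div_iff₀ (by positivity) (by positivity)]
        nlinarith
      linarith
  rcases le_total z Z with h2 | h2
  · have := h Z h2
    have h3 : 0 ≤ 1 / (Z : ℝ) := by positivity
    linarith
  · rw [Ioc_eq_empty (by omega)]
    simp

theorem tail_div (q z Z : ℕ) (hq : 1 ≤ q) (hz : 1 ≤ z) :
    ∑ p ∈ (Ioc z Z).filter Nat.Prime, (if p ∣ q then 1 / (p : ℝ) else 0) ≤ (Nat.log 2 q : ℝ) / z := by
  have hz0 : (0 : ℝ) < z := by exact_mod_cast hz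
  rw [← sum_filter]
  have h1 : ∀ p ∈ ((Ioc z Z).filter Nat.Prime).filter (fun p => p ∣ q), 1 / (p : ℝ) ≤ 1 / z := by
    intro p hp
    rw [mem_filter, mem_filter, mem_Ioc] at hp
    apply one_div_le_one_div_of_le hz0
    exact_mod_cast hp.1.1.1.le
  refine (sum_le_sum h1).trans ?_
  rw [sum_const, nsmul_eq_mul]
  have h2 : (((Ioc z Z).filter Nat.Prime).filter (fun p => p ∣ q)).card ≤ Nat.log 2 q := by
    have h3 : ((Ioc z Z).filter Nat.Prime).filter (fun p => p ∣ q) ⊆ q.primeFactors := by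
      intro p hp
      rw [mem_filter, mem_filter] at hp
      exact Nat.mem_primeFactors.2 ⟨hp.1.2, hp.2, by omega⟩
    refine (card_le_card h3).trans ?_
    apply Nat.le_log_of_pow_le (by norm_num)
    calc 2 ^ q.primeFactors.card = ∏ _p ∈ q.primeFactors, 2 := by rw [prod_const]
      _ ≤ ∏ p ∈ q.primeFactors, p := prod_le_prod' fun p hp => (Nat.prime_of_mem_primeFactors hp).two_le
      _ ≤ q := Nat.le_of_dvd hq (Nat.prod_primeFactors_dvd q)
  have h4 : (((((Ioc z Z).filter Nat.Prime).filter (fun p => p ∣ q)).card : ℕ) : ℝ) ≤ (Nat.log 2 q : ℝ) := by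
    exact_mod_cast h2
  calc _ ≤ (Nat.log 2 q : ℝ) * (1 / z) := mul_le_mul_of_nonneg_right h4 (by positivity)
    _ = _ := by ring

theorem prod_split (z Z : ℕ) (h : z ≤ Z) (f : ℕ → ℝ) :
    ∏ p ∈ pz Z, f p = (∏ p ∈ pz z, f p) * ∏ p ∈ (Ioc z Z).filter Nat.Prime, f p := by
  rw [← prod_union]
  · congr 1
    ext p
    rw [mem_union, mem_filter, mem_pz, mem_pz, mem_Ioc]
    constructor
    · rintro ⟨h1, h2⟩
      rcases le_or_gt p z with h3 | h3
      · exact Or.inl ⟨h3, h2⟩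
      · exact Or.inr ⟨⟨h3, h1⟩, h2⟩
    · rintro (⟨h1, h2⟩ | ⟨⟨h1, h3⟩, h2⟩)
      · exact ⟨by omega, h2⟩
      · exact ⟨h3, h2⟩
  · rw [disjoint_left]
    intro p hp hp'
    rw [mem_pz] at hp
    rw [mem_filter, mem_Ioc] at hp'
    omega

/-- the truncations converge to the singular series -/
theorem sing_tendsto (G : Finset ℕ) (q : ℕ) (hq : 1 ≤ q) :
    Tendsto (fun Z : ℕ => ∏ p ∈ pz Z, fac G q p) atTop (𝓝 (sing G q)) := by
  set a : ℕ → ℝ := fun p => if p.Prime then fac G q p - 1 else 0 with ha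
  have h1 : (fun p : ℕ => if p.Prime then fac G q p else 1) = fun p => 1 + a p := by
    funext p
    simp only [ha]
    split_ifs <;> ring
  have hsum : Summable (fun p : ℕ => 4 * (G.card : ℝ) ^ 2 * (1 / (p : ℝ) ^ 2)) :=
    (Real.summable_one_div_nat_pow.2 (by norm_num)).mul_left _
  have h2 : Summable (fun p => ‖a p‖) := by
    apply Summable.of_norm_bounded_eventually_nat hsum
    filter_upwards [eventually_ge_atTop (max (2 * G.card) (max (G.sup id + 1) (q + 1)))] with p hp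
    rw [norm_norm]
    simp only [ha]
    have hp1 : 2 * G.card ≤ p := by omega
    have hp2 : G.sup id + 1 ≤ p := by omega
    have hp3 : q + 1 ≤ p := by omega
    split_ifs with hpp
    · have := fac_close G q p hpp (fun g hg => by
        have : g ≤ G.sup id := le_sup (f := id) hg
        omega) hp1
      have hnd : ¬ p ∣ q := fun hd => by
        have := Nat.le_of_dvd hq hd
        omega
      rw [if_neg hnd, add_zero] at this
      exact this
    · rw [norm_zero]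
      positivity
  have h3 : Multipliable (fun p : ℕ => if p.Prime then fac G q p else 1) := by
    rw [h1]
    exact multipliable_one_add_of_summable h2
  have h4 := h3.hasProd.tendsto_prod_nat
  have h5 := h4.comp (tendsto_add_atTop_nat 1)
  unfold sing
  refine h5.congr fun Z => ?_
  simp only [Function.comp]
  unfold pz
  rw [prod_filter]
  have h6 : range (Z + 1) = insert 0 (Icc 1 Z) := by
    ext n
    rw [mem_range, mem_insert, mem_Icc]
    omega
  rw [h6, prod_insert (by rw [mem_Icc]; omega), if_neg Nat.not_prime_zero, one_mul]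

/-- the error of the truncation -/
theorem sing_trunc (G : Finset ℕ) : ∃ z0 : ℕ, ∀ q z : ℕ, 1 ≤ q → z0 ≤ z →
    |∏ p ∈ pz z, fac G q p - sing G q| ≤
      (∏ p ∈ pz z, fac G q p) * (Real.exp (4 * (G.card : ℝ) ^ 2 * ((1 + Nat.log 2 q) / z)) - 1) := by
  refine ⟨max (2 * G.card) (G.sup id + 1), fun q z hq hz => ?_⟩
  have hz1 : 1 ≤ z := by omega
  have hz0 : (0 : ℝ) < z := by exact_mod_cast hz1
  set Pz := ∏ p ∈ pz z, fac G q p with hPz
  have hPz0 : 0 ≤ Pz := prod_nonneg fun p hp => fac_nonneg G q p (mem_pz.1 hp).2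
  set δ := 4 * (G.card : ℝ) ^ 2 * ((1 + Nat.log 2 q) / z) with hδ
  have h1 : ∀ Z : ℕ, z ≤ Z → |Pz - ∏ p ∈ pz Z, fac G q p| ≤ Pz * (Real.exp δ - 1) := by
    intro Z hZ
    rw [prod_split z Z hZ (fac G q), ← hPz]
    have e : Pz - Pz * ∏ p ∈ (Ioc z Z).filter Nat.Prime, fac G q p =
        -(Pz * (∏ p ∈ (Ioc z Z).filter Nat.Prime, fac G q p - 1)) := by ring
    rw [e, abs_neg, abs_mul, abs_of_nonneg hPz0]
    apply mul_le_mul_of_nonneg_left _ hPz0
    have h2 := norm_prod_one_add_sub_one_le ((Ioc z Z).filter Nat.Prime) (fun p => fac G q p - 1)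
    have h3 : ∏ p ∈ (Ioc z Z).filter Nat.Prime, (1 + (fac G q p - 1)) = ∏ p ∈ (Ioc z Z).filter Nat.Prime, fac G q p :=
      prod_congr rfl fun p _ => by ring
    rw [h3, Real.norm_eq_abs] at h2
    refine h2.trans ?_
    apply sub_le_sub_right
    apply Real.exp_le_exp.2
    calc ∑ p ∈ (Ioc z Z).filter Nat.Prime, ‖fac G q p - 1‖ ≤
        ∑ p ∈ (Ioc z Z).filter Nat.Prime, 4 * (G.card : ℝ) ^ 2 * (1 / (p : ℝ) ^ 2 + if p ∣ q then 1 / (p : ℝ) else 0) := by
          apply sum_le_sum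
          intro p hp
          rw [mem_filter, mem_Ioc] at hp
          rw [Real.norm_eq_abs]
          apply fac_close G q p hp.2
          · intro g hg
            have : g ≤ G.sup id := le_sup (f := id) hg
            omega
          · omega
      _ = 4 * (G.card : ℝ) ^ 2 * (∑ p ∈ (Ioc z Z).filter Nat.Prime, 1 / (p : ℝ) ^ 2 +
            ∑ p ∈ (Ioc z Z).filter Nat.Prime, if p ∣ q then 1 / (p : ℝ) else 0) := by
          rw [← mul_sum, sum_add_distrib]
      _ ≤ 4 * (G.card : ℝ) ^ 2 * (1 / z + (Nat.log 2 q : ℝ) / z) := by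
          apply mul_le_mul_of_nonneg_left _ (by positivity)
          exact add_le_add (tail_sq z Z hz1) (tail_div q z Z hq hz1)
      _ = δ := by rw [hδ, add_div]
  have h2 : Tendsto (fun Z : ℕ => |Pz - ∏ p ∈ pz Z, fac G q p|) atTop (𝓝 |Pz - sing G q|) :=
    ((tendsto_const_nhds).sub (sing_tendsto G q hq)).abs
  exact le_of_tendsto h2 (eventually_atTop.2 ⟨z, h1⟩)

end Pool.Agent.K4H14.IP
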